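import Pool.Agent.Y8.Stm8

/-!
The count in a time interval, final form (jobs S_TU1 and S_TU of helper8).
-/

open MeasureTheory Set Metric
open scoped ContDiff

namespace Pool.Agent.Y496.NS.TU

open H459R3.NS W221.NS Pool.Agent.Y8

theorem enst_nn (u : V → V) : 0 ≤ enstrophy u :=
  Finset.sum_nonneg fun _ _ => Finset.sum_nonneg fun _ _ => integral_nonneg fun _ => sq_nonneg _

/-- the enstrophy is integrable on subintervals -/
theorem enst_ion {ν T E D : ℝ} {G : Set ℝ} {u : ℝ → V → V} {p : ℝ → V → ℝ}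
    (h : Turb ν T E D G u p) {a b : ℝ} (ha : 0 ≤ a) (hb : b ≤ T) :
    IntegrableOn (fun t => enstrophy (u t)) (Ioo a b) := by
  have h1 : IntegrableOn (fun t => enstrophy (u t)) (Ioo a b ∩ G) :=
    h.enst_int.mono_set inter_subset_right
  refine h1.congr_set_ae ?_
  have h2 : volume (Ioo a b \ G) = 0 :=
    measure_mono_null (sdiff_subset_sdiff_left (Ioo_subset_Ioo ha hb)) h.fullG
  refine Filter.EventuallyLE.antisymm ?_ inter_subset_left.eventuallyLE
  rw [ae_le_set]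
  refine measure_mono_null ?_ h2
  intro t ht
  exact ⟨ht.1, fun h3 => ht.2 ⟨ht.1, h3⟩⟩

theorem rr_pos (n : ℕ) : 0 < rr n := by
  unfold rr
  positivity

theorem rr_add (n m : ℕ) : rr (n + m) = rr n * rr m := by
  unfold rr
  rw [pow_add]

theorem enstrophy_sm (c : ℝ) (v : V → V) :
    enstrophy (fun x => c • v x) = c ^ 2 * enstrophy v := by
  unfold enstrophy
  rw [Finset.mul_sum]
  refine Finset.sum_congr rfl fun i _ => ?_
  rw [Finset.mul_sum]
  refine Finset.sum_congr rfl fun j _ => ?_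
  rw [← integral_const_mul]
  refine integral_congr_ae (ae_of_all _ fun x => ?_)
  simp only
  have e1 : pd j (fun y => (c • v y) i) x = c * pd j (fun y => v y i) x := by
    unfold pd
    have : (fun y => (c • v y) i) = c • (fun y => v y i) := rfl
    rw [this, fderiv_const_smul_field]
    rfl
  rw [e1]
  ring

/-- The count on a short time interval, with restriction. -/
theorem win (hR : S_RESTR) {E C : ℝ} {n₀ : ℕ}
    (hW : ∀ (T D : ℝ) (G : Set ℝ) (u : ℝ → V → V) (p : ℝ → V → ℝ), Turb 1 T E D G u p →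
    ∀ (n i : ℕ) (α β : ℝ), n₀ ≤ n → 3 ≤ i → β - α ≤ rr (n + i) ^ 2 → rr n ^ 2 < α →
      β + rr n ^ 2 < T → ∀ S : Finset (ℝ × V), Sep (rr n) S →
        (∀ z ∈ S, z.1 ∈ Icc α β ∧ z.2 ∈ cube ∧ SingPt G u z.1 z.2) →
          (S.card : ℝ) ≤ C * (D + (16 ^ i)⁻¹) * 2 ^ n)
    {T D : ℝ} {G : Set ℝ} {u : ℝ → V → V} {p : ℝ → V → ℝ} (hT : Turb 1 T E D G u p)
    {n i : ℕ} {α β κ : ℝ} (hn : n₀ ≤ n) (hi : 3 ≤ i) (hαβ : α ≤ β) (hab : β - α ≤ rr (n + i) ^ 2)
    (hκ : rr n ^ 2 < κ) (hα : κ ≤ α) (hβ : β + κ ≤ T) (S : Finset (ℝ × V)) (hS : Sep (rr n) S)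
    (hz : ∀ z ∈ S, z.1 ∈ Icc α β ∧ z.2 ∈ cube ∧ SingPt G u z.1 z.2) :
    (S.card : ℝ) ≤ C * ((∫ t in Ioo (α - κ) (β + κ), enstrophy (u t)) + (16 ^ i)⁻¹) * 2 ^ n := by
  have hrn := rr_pos n
  have hκ0 : 0 < κ := lt_of_le_of_lt (by positivity) hκ
  set a : ℝ := α - κ with ha
  set b : ℝ := β + κ with hb
  have ha0 : 0 ≤ a := by rw [ha]; linarith
  have hab' : a < b := by rw [ha, hb]; linarith
  obtain ⟨hT', hsing⟩ := hR 1 T E D G u p hT a b ha0 hab' hβ
  classical
  set f : ℝ × V → ℝ × V := fun z => (z.1 - a, z.2) with hf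
  have hinj : Function.Injective f := by
    rintro ⟨t, x⟩ ⟨t', x'⟩ hh
    simp only [hf, Prod.mk.injEq] at hh
    obtain ⟨h1, h2⟩ := hh
    rw [show t = t' by linarith, h2]
  have hcard : (S.image f).card = S.card := Finset.card_image_of_injective S hinj
  have hsep : Sep (rr n) (S.image f) := by
    intro z hz' w hw' hne
    obtain ⟨z, hzS, rfl⟩ := Finset.mem_image.1 hz'
    obtain ⟨w, hwS, rfl⟩ := Finset.mem_image.1 hw'
    have hne' : z ≠ w := fun e => hne (by rw [e])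
    have e1 : (f z).1 - (f w).1 = z.1 - w.1 := by
      show z.1 - a - (w.1 - a) = z.1 - w.1
      ring
    rw [e1]
    exact hS z hzS w hwS hne'
  have hpts : ∀ z ∈ S.image f, z.1 ∈ Icc (α - a) (β - a) ∧ z.2 ∈ cube ∧
      SingPt {t | t ∈ Ioo 0 (b - a) ∧ a + t ∈ G} (fun t => u (a + t)) z.1 z.2 := by
    intro z hz'
    obtain ⟨z, hzS, rfl⟩ := Finset.mem_image.1 hz'
    obtain ⟨h2, h3, h4⟩ := hz z hzS
    refine ⟨⟨?_, ?_⟩, h3, hsing z.1 z.2 ⟨?_, ?_⟩ h4⟩
    · show α - a ≤ z.1 - a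
      linarith [h2.1]
    · show z.1 - a ≤ β - a
      linarith [h2.2]
    · linarith [h2.1]
    · linarith [h2.2]
  have h2 := hW _ _ _ _ _ hT' n i (α - a) (β - a) hn hi (by linarith) (by linarith)
    (by linarith) (S.image f) hsep hpts
  rw [hcard] at h2
  exact h2

/-- The number of integers in an open interval. -/
theorem card_int (k : ℕ) (x : ℝ) (N : ℕ) :
    ((Finset.range k).filter (fun j : ℕ => x < j ∧ (j:ℝ) < x + N)).card ≤ N := by
  classical
  set A := (Finset.range k).filter (fun j : ℕ => x < j ∧ (j:ℝ) < x + N) with hA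
  rcases A.eq_empty_or_nonempty with h | h
  · rw [h]; simp
  · set j0 := A.min' h with hj0
    have hj0A : j0 ∈ A := Finset.min'_mem A h
    have h0 := (Finset.mem_filter.1 hj0A).2
    have hsub : A ⊆ Finset.Ico j0 (j0 + N) := by
      intro j hj
      have h1 := (Finset.mem_filter.1 hj).2
      rw [Finset.mem_Ico]
      refine ⟨Finset.min'_le A j hj, ?_⟩
      have h2 : (j:ℝ) < j0 + N := by linarith [h1.2, h0.1]
      exact_mod_cast h2
    calc A.card ≤ (Finset.Ico j0 (j0 + N)).card := Finset.card_le_card hsub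
      _ = N := by simp

/-- Bounded overlap. -/
theorem overlap {Y : ℝ → ℝ} (hY : ∀ t, 0 ≤ Y t) {a b : ℝ} (hI : IntegrableOn Y (Ioo a b))
    {l α κ : ℝ} (hl : 0 < l) (N : ℕ) (hN : l + 2 * κ ≤ N * l) (k : ℕ)
    (hk : ∀ j < k, a ≤ α + j * l - κ ∧ α + (j + 1) * l + κ ≤ b) :
    ∑ j ∈ Finset.range k, ∫ t in Ioo (α + j * l - κ) (α + (j + 1) * l + κ), Y t ≤
      N * ∫ t in Ioo a b, Y t := by
  classical
  have h1 : ∀ j ∈ Finset.range k, ∫ t in Ioo (α + j * l - κ) (α + (j + 1) * l + κ), Y t =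
      ∫ t in Ioo a b, (Ioo (α + j * l - κ) (α + (j + 1) * l + κ)).indicator Y t := by
    intro j hj
    obtain ⟨h2, h3⟩ := hk j (Finset.mem_range.1 hj)
    rw [setIntegral_indicator measurableSet_Ioo, inter_eq_right.2 (Ioo_subset_Ioo h2 h3)]
  have hint : ∀ j ∈ Finset.range k, IntegrableOn
      ((Ioo (α + (j:ℝ) * l - κ) (α + (j + 1) * l + κ)).indicator Y) (Ioo a b) := fun j _ =>
    Integrable.indicator hI measurableSet_Ioo
  rw [Finset.sum_congr rfl h1, ← integral_finsetSum _ hint, ← integral_const_mul]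
  refine integral_mono (integrable_finsetSum _ hint) (hI.const_mul _) fun t => ?_
  have h2 : ∀ j ∈ Finset.range k, (Ioo (α + (j:ℝ) * l - κ) (α + (j + 1) * l + κ)).indicator Y t =
      if (t - α - κ) / l - 1 < (j:ℝ) ∧ (j:ℝ) < (t - α + κ) / l then Y t else 0 := by
    intro j _
    rw [indicator_apply]
    have e : t ∈ Ioo (α + (j:ℝ) * l - κ) (α + (j + 1) * l + κ) ↔
        (t - α - κ) / l - 1 < (j:ℝ) ∧ (j:ℝ) < (t - α + κ) / l := by
      have e1 : (t - α - κ) / l - 1 < (j:ℝ) ↔ t - α - κ < ((j:ℝ) + 1) * l := by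
        rw [sub_lt_iff_lt_add, div_lt_iff₀ hl]
      have e2 : (j:ℝ) < (t - α + κ) / l ↔ (j:ℝ) * l < t - α + κ := lt_div_iff₀ hl
      rw [mem_Ioo, e1, e2]
      constructor
      · rintro ⟨h3, h4⟩
        exact ⟨by linarith, by linarith⟩
      · rintro ⟨h3, h4⟩
        exact ⟨by linarith, by linarith⟩
    by_cases ht : t ∈ Ioo (α + (j:ℝ) * l - κ) (α + (j + 1) * l + κ)
    · rw [if_pos ht, if_pos (e.1 ht)]
    · rw [if_neg ht, if_neg fun h => ht (e.2 h)]
  show ∑ j ∈ Finset.range k, (Ioo (α + (j:ℝ) * l - κ) (α + (j + 1) * l + κ)).indicator Y t ≤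
    N * Y t
  rw [Finset.sum_congr rfl h2, ← Finset.sum_filter, Finset.sum_const, nsmul_eq_mul]
  refine mul_le_mul_of_nonneg_right ?_ (hY t)
  have h3 : ((Finset.range k).filter fun j : ℕ =>
      (t - α - κ) / l - 1 < (j:ℝ) ∧ (j:ℝ) < (t - α + κ) / l) ⊆
      (Finset.range k).filter (fun j : ℕ => (t - α - κ) / l - 1 < j ∧
        (j:ℝ) < ((t - α - κ) / l - 1) + N) := by
    intro j hj
    obtain ⟨h4, h5, h6⟩ := Finset.mem_filter.1 hj
    refine Finset.mem_filter.2 ⟨h4, h5, h6.trans_le ?_⟩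
    rw [div_le_iff₀ hl]
    have : ((t - α - κ) / l - 1 + N) * l = (t - α - κ) - l + N * l := by
      field_simp
    rw [this]
    linarith
  exact_mod_cast (Finset.card_le_card h3).trans (card_int k _ N)

/-- the dyadic scale of a positive length -/
theorem scale_j {n : ℕ} {L : ℝ} (hL0 : 0 < L) (hL : L ≤ rr (n + 3) ^ 2) :
    ∃ i : ℕ, 3 ≤ i ∧ L ≤ rr (n + i) ^ 2 ∧ ((16:ℝ) ^ i)⁻¹ ≤ 16 * (L / rr n ^ 2) ^ 2 := by
  have hex : ∃ j : ℕ, ¬ L ≤ rr (n + (3 + j)) ^ 2 := by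
    obtain ⟨j, hj⟩ := exists_pow_lt_of_lt_one hL0 (by norm_num : (1 / 2 : ℝ) < 1)
    refine ⟨j, not_le.2 (lt_of_le_of_lt ?_ hj)⟩
    have h1 : rr (n + (3 + j)) ≤ (1 / 2 : ℝ) ^ j := by
      unfold rr
      exact pow_le_pow_of_le_one (by norm_num) (by norm_num) (by omega)
    have h2 : rr (n + (3 + j)) ≤ 1 := pow_le_one₀ (by norm_num) (by norm_num)
    have h3 := rr_pos (n + (3 + j))
    nlinarith
  classical
  have hspec := Nat.find_spec hex
  have hmin := fun m => Nat.find_min hex (m := m)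
  set j := Nat.find hex with hj
  have hj0 : j ≠ 0 := by
    intro h0
    rw [h0] at hspec
    exact hspec hL
  obtain ⟨i', hi'⟩ := Nat.exists_eq_succ_of_ne_zero hj0
  have h1 := hmin i' (by omega)
  rw [not_not] at h1
  refine ⟨3 + i', by omega, h1, ?_⟩
  rw [hi', not_le] at hspec
  have h2' : rr (n + (3 + i'.succ)) = rr n * (rr (3 + i') / 2) := by
    show rr (n + (3 + (i' + 1))) = rr n * (rr (3 + i') / 2)
    rw [rr_add]
    congr 1
    unfold rr
    rw [← add_assoc, pow_succ]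
    ring
  rw [h2', mul_pow, div_pow] at hspec
  have hrn := rr_pos n
  have hri := rr_pos (3 + i')
  have h3 : rr (3 + i') ^ 2 ≤ 4 * (L / rr n ^ 2) := by
    rw [mul_div_assoc', le_div_iff₀ (by positivity)]
    nlinarith
  have h4 : ((16:ℝ) ^ (3 + i'))⁻¹ = (rr (3 + i') ^ 2) ^ 2 := by
    unfold rr
    rw [← pow_mul, ← pow_mul, one_div, inv_pow, show (3 + i') * (2 * 2) = 4 * (3 + i') by ring,
      pow_mul]
    norm_num
  rw [h4]
  calc (rr (3 + i') ^ 2) ^ 2 ≤ (4 * (L / rr n ^ 2)) ^ 2 := by gcongr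
    _ = 16 * (L / rr n ^ 2) ^ 2 := by ring

theorem sep_mono {r r' : ℝ} {S S' : Finset (ℝ × V)} (h : Sep r S) (hr0 : 0 ≤ r') (hr : r' ≤ r)
    (hS : S' ⊆ S) : Sep r' S' := by
  intro z hz w hw hne
  rcases h z (hS hz) w (hS hw) hne with h1 | h1
  · exact Or.inl ((pow_le_pow_left₀ hr0 hr 2).trans h1)
  · exact Or.inr (hr.trans h1)

theorem t_TU1 : S_RESTR → S_FINL → S_WINL2 → S_TU1 := by
  intro hR hF hW E
  obtain ⟨CF, hCF, hF⟩ := hF E
  obtain ⟨CW, n₀, hCW, hW⟩ := hW E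
  set A : ℝ := CW * 2 ^ (n₀ + 1) with hA
  have hA0 : 0 < A := by positivity
  set Q : ℝ := 16 ^ (n₀ + 1) with hQ
  have hQ1 : 1 ≤ Q := one_le_pow₀ (by norm_num)
  refine ⟨CF + A * (193 + 16 * Q), by positivity, ?_⟩
  intro T D G u p hT r α β hr hr1 hαβ hα hβ S hS hz
  have hr2 : 0 < r ^ 2 := by positivity
  set a : ℝ := α - 2 * r ^ 2 with ha
  set b : ℝ := β + 2 * r ^ 2 with hb
  have ha0 : 0 ≤ a := by rw [ha]; linarith
  have hab : a < b := by rw [ha, hb]; linarith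
  have hion := enst_ion hT ha0 hβ.le
  have hY0 : 0 ≤ ∫ t in Ioo a b, enstrophy (u t) := integral_nonneg fun t => enst_nn _
  set IY : ℝ := ∫ t in Ioo a b, enstrophy (u t) with hIY
  set h : ℝ := β - α with hh
  have hh0 : 0 ≤ h := by rw [hh]; linarith
  -- the first bound
  have hb1 : (S.card : ℝ) * r ≤ CF * (r ^ (-(2 / 23) : ℝ) *
      ∫ t in Ioo a b, (1 + enstrophy (u t))) := by
    obtain ⟨hT', hsing⟩ := hR 1 T E D G u p hT a b ha0 hab hβ.le
    have hI : (b - a) + IY = ∫ t in Ioo a b, (1 + enstrophy (u t)) := by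
      have h1 : IntegrableOn (fun _ : ℝ => (1 : ℝ)) (Ioo a b) :=
        integrableOn_const (by simp)
      rw [integral_add h1 hion]
      congr 1
      rw [setIntegral_const, smul_eq_mul, mul_one]
      simp [Measure.real, Real.volume_Ioo, hab.le]
    rw [← hI]
    classical
    set f : ℝ × V → ℝ × V := fun z => (z.1 - a, z.2) with hf
    have hinj : Function.Injective f := by
      rintro ⟨t, x⟩ ⟨t', x'⟩ hh
      simp only [hf, Prod.mk.injEq] at hh
      obtain ⟨h1, h2⟩ := hh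
      rw [show t = t' by linarith, h2]
    have hcard : (S.image f).card = S.card := Finset.card_image_of_injective S hinj
    have hsep : Sep r (S.image f) := by
      intro z hz' w hw' hne
      obtain ⟨z, hzS, rfl⟩ := Finset.mem_image.1 hz'
      obtain ⟨w, hwS, rfl⟩ := Finset.mem_image.1 hw'
      have hne' : z ≠ w := fun e => hne (by rw [e])
      have e1 : (f z).1 - (f w).1 = z.1 - w.1 := by
        show z.1 - a - (w.1 - a) = z.1 - w.1
        ring
      rw [e1]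
      exact hS z hzS w hwS hne'
    have h1 := hF _ _ _ _ _ hT' r hr hr1 (S.image f) hsep (by
      intro z hz'
      obtain ⟨z, hzS, rfl⟩ := Finset.mem_image.1 hz'
      obtain ⟨h2, h3, h4⟩ := hz z hzS
      refine ⟨?_, ?_, h3, hsing z.1 z.2 ⟨?_, ?_⟩ h4⟩
      · show 0 < z.1 - a - r ^ 2
        linarith [h2.1]
      · show z.1 - a + r ^ 2 < b - a
        linarith [h2.2]
      · linarith [h2.1]
      · linarith [h2.2])
    rw [hcard, abs_of_pos (by linarith : 0 < b - a)] at h1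
    have e1 : r ^ (-(25 / 23) : ℝ) * r = r ^ (-(2 / 23) : ℝ) := by
      nth_rewrite 2 [← Real.rpow_one r]
      rw [← Real.rpow_add hr]
      norm_num
    calc (S.card : ℝ) * r ≤ (CF * (b - a + IY) * r ^ (-(25 / 23) : ℝ)) * r := by gcongr
      _ = CF * ((r ^ (-(25 / 23) : ℝ) * r) * (b - a + IY)) := by ring
      _ = _ := by rw [e1]
  -- the scale
  obtain ⟨m, hm1, hm2⟩ := exists_nat_pow_near_of_lt_one hr hr1 (by norm_num : (0 : ℝ) < 1 / 2)
    (by norm_num : (1 / 2 : ℝ) < 1)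
  set n : ℕ := n₀ + (m + 1) with hn
  have hn1 : rr (m + 1) ≤ r := hm1.le
  have hn2 : r ≤ 2 * rr (m + 1) := by
    unfold rr
    rw [pow_succ]
    linarith
  have hrn := rr_pos n
  have hrm := rr_pos (m + 1)
  have hrn0 : rr n₀ ≤ 1 := pow_le_one₀ (by norm_num) (by norm_num)
  have hrn0p := rr_pos n₀
  have hrne : rr n = rr n₀ * rr (m + 1) := rr_add _ _
  have hrnr : rr n ≤ r := by
    rw [hrne]
    nlinarith
  have h2n0 : (2:ℝ) ^ n₀ * rr n₀ = 1 := by
    unfold rr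
    rw [← mul_pow]
    norm_num
  have hrr : r ≤ 2 ^ (n₀ + 1) * rr n := by
    rw [hrne]
    calc r ≤ 2 * rr (m + 1) := hn2
      _ = (2 ^ n₀ * rr n₀) * (2 * rr (m + 1)) := by rw [h2n0, one_mul]
      _ = _ := by rw [pow_succ]; ring
  have h2n : (2:ℝ) ^ n = (rr n)⁻¹ := by
    unfold rr
    rw [one_div, inv_pow, inv_inv]
  have hr2n : r * 2 ^ n ≤ 2 ^ (n₀ + 1) := by
    rw [h2n, ← div_eq_mul_inv, div_le_iff₀ hrn]
    exact hrr
  have hrr2 : rr n ^ 2 ≤ r ^ 2 := pow_le_pow_left₀ hrn.le hrnr 2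
  have hn₀ : n₀ ≤ n := by omega
  have hhr : h / rr n ^ 2 ≤ 2 ^ (n₀ + 1) * 2 ^ (n₀ + 1) * (h / r ^ 2) := by
    rw [mul_div_assoc', div_le_div_iff₀ (by positivity) hr2]
    have h1 : r ^ 2 ≤ (2 ^ (n₀ + 1) * rr n) ^ 2 := pow_le_pow_left₀ hr.le hrr 2
    calc h * r ^ 2 ≤ h * (2 ^ (n₀ + 1) * rr n) ^ 2 := mul_le_mul_of_nonneg_left h1 hh0
      _ = _ := by ring
  have hsq : (h / rr n ^ 2) ^ 2 ≤ Q * (h / r ^ 2) ^ 2 := by
    have h1 : 0 ≤ h / rr n ^ 2 := by positivity
    calc (h / rr n ^ 2) ^ 2 ≤ (2 ^ (n₀ + 1) * 2 ^ (n₀ + 1) * (h / r ^ 2)) ^ 2 := by gcongr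
      _ = Q * (h / r ^ 2) ^ 2 := by
        rw [hQ, show (16:ℝ) = 2 ^ 4 by norm_num, ← pow_mul]
        ring
  -- the second bound
  have hb2 : (S.card : ℝ) * r ≤ A * (193 * IY + 16 * (h / rr n ^ 2) ^ 2) := by
    have hcr : ∀ X : ℝ, 0 ≤ X → (S.card : ℝ) ≤ CW * X * 2 ^ n → (S.card : ℝ) * r ≤ A * X := by
      intro X hX hc
      calc (S.card : ℝ) * r ≤ (CW * X * 2 ^ n) * r := mul_le_mul_of_nonneg_right hc hr.le
        _ = CW * X * (r * 2 ^ n) := by ring
        _ ≤ CW * X * 2 ^ (n₀ + 1) := mul_le_mul_of_nonneg_left hr2n (by positivity)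
        _ = A * X := by rw [hA]; ring
    by_cases hshort : h ≤ rr (n + 3) ^ 2
    · have hwin : ∀ i : ℕ, 3 ≤ i → h ≤ rr (n + i) ^ 2 →
          (S.card : ℝ) * r ≤ A * (IY + (16 ^ i)⁻¹) := by
        intro i hi hhi
        refine hcr _ (by positivity) ?_
        exact win hR hW hT hn₀ hi hαβ hhi (κ := 2 * r ^ 2) (by linarith) hα.le hβ.le S
          (sep_mono hS hrn.le hrnr subset_rfl) hz
      have hIY193 : IY ≤ 193 * IY := by linarith
      rcases hh0.eq_or_lt with h0 | h0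
      · have hlim : (S.card : ℝ) * r ≤ A * IY := by
          refine le_of_forall_pos_le_add fun ε hε => ?_
          obtain ⟨i, hi⟩ := exists_pow_lt_of_lt_one (by positivity : 0 < ε / A)
            (by norm_num : (1 / 16 : ℝ) < 1)
          have h1 := hwin (i + 3) (by omega) (by rw [← h0]; positivity)
          have h2 : ((16:ℝ) ^ (i + 3))⁻¹ ≤ ε / A := by
            calc ((16:ℝ) ^ (i + 3))⁻¹ = (1 / 16 : ℝ) ^ (i + 3) := by
                  rw [one_div, inv_pow]
              _ ≤ (1 / 16 : ℝ) ^ i := pow_le_pow_of_le_one (by norm_num) (by norm_num) (by omega)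
              _ ≤ ε / A := hi.le
          calc (S.card : ℝ) * r ≤ A * (IY + (16 ^ (i + 3))⁻¹) := h1
            _ ≤ A * (IY + ε / A) := by gcongr
            _ = A * IY + ε := by field_simp
        refine hlim.trans (mul_le_mul_of_nonneg_left ?_ hA0.le)
        have : 0 ≤ 16 * (h / rr n ^ 2) ^ 2 := by positivity
        linarith
      · obtain ⟨i, hi3, hi, hnum⟩ := scale_j h0 hshort
        refine (hwin i hi3 hi).trans (mul_le_mul_of_nonneg_left ?_ hA0.le)
        linarith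
    · -- long intervals
      rw [not_le] at hshort
      classical
      set l : ℝ := rr (n + 3) ^ 2 with hl
      have hl0 : 0 < l := by
        have := rr_pos (n + 3)
        positivity
      have hrl : rr n ^ 2 = 64 * l := by
        rw [hl, rr_add]
        unfold rr
        ring
      set k : ℕ := ⌊h / l⌋₊ + 1 with hk
      have hhl : 0 ≤ h / l := by positivity
      have hk1 : (k:ℝ) ≤ h / l + 1 := by
        rw [hk]
        push_cast
        have := Nat.floor_le hhl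
        linarith
      have hk2 : h / l < k := by
        rw [hk]
        push_cast
        exact Nat.lt_floor_add_one _
      have hjl : ∀ j < k, (j:ℝ) * l ≤ h := by
        intro j hj
        have h1 : (j:ℝ) ≤ h / l := by
          have h2 : j ≤ ⌊h / l⌋₊ := by omega
          exact (Nat.cast_le.2 h2).trans (Nat.floor_le hhl)
        rwa [le_div_iff₀ hl0] at h1
      set κ : ℝ := 3 / 2 * rr n ^ 2 with hκ
      have hrn2 : 0 < rr n ^ 2 := by positivity
      set Sj : ℕ → Finset (ℝ × V) := fun j =>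
        S.filter (fun z => z.1 ∈ Icc (α + j * l) (α + (j + 1) * l)) with hSj
      have hcov : S ⊆ (Finset.range k).biUnion Sj := by
        intro z hzS
        have h1 := (hz z hzS).1
        have h2 : 0 ≤ (z.1 - α) / l := div_nonneg (by linarith [h1.1]) hl0.le
        rw [Finset.mem_biUnion]
        refine ⟨⌊(z.1 - α) / l⌋₊, ?_, ?_⟩
        · rw [Finset.mem_range, hk]
          have h3 : (z.1 - α) / l ≤ h / l := by
            rw [hh]
            gcongr
            exact h1.2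
          have h4 := Nat.floor_le_floor h3
          omega
        · rw [hSj]
          refine Finset.mem_filter.2 ⟨hzS, ?_, ?_⟩
          · have h3 := Nat.floor_le h2
            rw [le_div_iff₀ hl0] at h3
            linarith
          · have h3 := Nat.lt_floor_add_one ((z.1 - α) / l)
            rw [div_lt_iff₀ hl0] at h3
            linarith
      have hbox : ∀ j < k, a ≤ α + j * l - κ ∧ α + (j + 1) * l + κ ≤ b := by
        intro j hj
        have h1 := hjl j hj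
        have h2 : 0 ≤ (j:ℝ) * l := by positivity
        constructor
        · rw [ha, hκ]
          linarith
        · rw [hb, hκ]
          have h3 : α + (j + 1) * l = α + j * l + l := by ring
          rw [h3]
          linarith
      have hcj : ∀ j ∈ Finset.range k, ((Sj j).card : ℝ) ≤
          CW * ((∫ t in Ioo (α + j * l - κ) (α + (j + 1) * l + κ), enstrophy (u t)) +
            (16 ^ 3)⁻¹) * 2 ^ n := by
        intro j hj
        have hj' := Finset.mem_range.1 hj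
        obtain ⟨h1, h2⟩ := hbox j hj'
        refine win hR hW hT hn₀ le_rfl (α := α + j * l) (β := α + (j + 1) * l) (κ := κ) ?_ ?_ ?_ ?_
          ?_ (Sj j) (sep_mono hS hrn.le hrnr (Finset.filter_subset _ _)) ?_
        · have h3 : α + (j + 1) * l = α + j * l + l := by ring
          rw [h3]
          linarith
        · have h3 : α + (j + 1) * l - (α + j * l) = l := by ring
          rw [h3]
        · rw [hκ]
          linarith
        · linarith
        · linarith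
        · intro z hzS
          obtain ⟨h3, h4⟩ := Finset.mem_filter.1 hzS
          obtain ⟨-, h5, h6⟩ := hz z h3
          exact ⟨h4, h5, h6⟩
      have hover := overlap (Y := fun t => enstrophy (u t)) (fun t => enst_nn _) hion (α := α)
        (κ := κ) hl0 193 (by rw [hκ, hrl]; push_cast; linarith) k hbox
      have hcard : (S.card : ℝ) ≤ ∑ j ∈ Finset.range k, ((Sj j).card : ℝ) := by
        have h1 := (Finset.card_le_card hcov).trans Finset.card_biUnion_le
        exact_mod_cast h1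
      have hk3 : (k:ℝ) * (16 ^ 3)⁻¹ ≤ 16 * (h / rr n ^ 2) ^ 2 := by
        have h1 : 1 < h / l := by
          rw [lt_div_iff₀ hl0]
          linarith
        have h2 : h / rr n ^ 2 = h / l / 64 := by
          rw [hrl]
          field_simp
        rw [h2]
        nlinarith
      refine hcr _ (by positivity) (hcard.trans ((Finset.sum_le_sum hcj).trans ?_))
      have e : ∑ j ∈ Finset.range k, CW * ((∫ t in Ioo (α + (j:ℝ) * l - κ) (α + (j + 1) * l + κ),
          enstrophy (u t)) + (16 ^ 3)⁻¹) * 2 ^ n = CW * ((∑ j ∈ Finset.range k,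
          ∫ t in Ioo (α + (j:ℝ) * l - κ) (α + (j + 1) * l + κ), enstrophy (u t)) +
            k * (16 ^ 3)⁻¹) * 2 ^ n := by
        rw [← Finset.sum_mul, ← Finset.mul_sum, Finset.sum_add_distrib, Finset.sum_const,
          Finset.card_range, nsmul_eq_mul]
      rw [e]
      refine mul_le_mul_of_nonneg_right (mul_le_mul_of_nonneg_left ?_ hCW.le) (by positivity)
      have hover' : ∑ j ∈ Finset.range k,
          ∫ t in Ioo (α + (j:ℝ) * l - κ) (α + (j + 1) * l + κ), enstrophy (u t) ≤ 193 * IY := by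
        have := hover
        push_cast at this
        exact this
      linarith
  have hb3 : (S.card : ℝ) * r ≤ A * (193 + 16 * Q) * (IY + (h / r ^ 2) ^ 2) := by
    refine hb2.trans ?_
    rw [mul_assoc A]
    refine mul_le_mul_of_nonneg_left ?_ hA0.le
    have h1 : 0 ≤ (h / r ^ 2) ^ 2 := by positivity
    nlinarith
  -- the minimum
  rcases le_total (r ^ (-(2 / 23) : ℝ) * ∫ t in Ioo a b, (1 + enstrophy (u t)))
    ((h / r ^ 2) ^ 2) with hle | hle
  · rw [min_eq_left hle]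
    have h1 : 0 ≤ r ^ (-(2 / 23) : ℝ) * ∫ t in Ioo a b, (1 + enstrophy (u t)) := by
      have : 0 ≤ ∫ t in Ioo a b, (1 + enstrophy (u t)) := integral_nonneg fun t => by
        have := enst_nn (u t)
        show 0 ≤ 1 + enstrophy (u t)
        linarith
      positivity
    refine hb1.trans ?_
    have h2 : 0 ≤ A * (193 + 16 * Q) * (IY + r ^ (-(2 / 23) : ℝ) *
        ∫ t in Ioo a b, (1 + enstrophy (u t))) := by positivity
    have h3 : 0 ≤ CF * IY := by positivity
    rw [add_mul]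
    linarith
  · rw [min_eq_right hle]
    refine hb3.trans ?_
    have h2 : 0 ≤ CF * (IY + (h / r ^ 2) ^ 2) := by positivity
    rw [add_mul]
    linarith

theorem t_TU : S_WSCAL → S_TU1 → S_TU := by
  intro hsc hts ν E hν
  obtain ⟨C, hC, h⟩ := hts (E / ν)
  set c : ℝ := ν⁻¹ + ν * (1 + ν⁻¹ ^ 2) + ν ^ 2 with hc
  have hc0 : 0 < c := by positivity
  refine ⟨C * c, by positivity, ?_⟩
  intro T D G u p hT r α β hr hr1 hαβ hα hβ S hS hz
  obtain ⟨hT', hsing⟩ := hsc ν T E D G u p hν hT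
  classical
  set f : ℝ × V → ℝ × V := fun z => (ν * z.1, z.2) with hf
  have hinj : Function.Injective f := by
    rintro ⟨t, x⟩ ⟨t', x'⟩ hh
    simp only [hf, Prod.mk.injEq] at hh
    obtain ⟨h1, h2⟩ := hh
    rw [mul_left_cancel₀ hν.ne' h1, h2]
  have hcard : (S.image f).card = S.card := Finset.card_image_of_injective S hinj
  have hsep : Sep r (S.image f) := by
    intro z hz' w hw' hne
    obtain ⟨z, hzS, rfl⟩ := Finset.mem_image.1 hz'
    obtain ⟨w, hwS, rfl⟩ := Finset.mem_image.1 hw'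
    have hne' : z ≠ w := fun e => hne (by rw [e])
    rcases hS z hzS w hwS hne' with h1 | h1
    · left
      show r ^ 2 ≤ |ν * z.1 - ν * w.1|
      rw [← mul_sub, abs_mul, abs_of_pos hν]
      exact h1
    · right
      exact h1
  have h1 := h _ _ _ _ _ hT' r (ν * α) (ν * β) hr hr1 (mul_le_mul_of_nonneg_left hαβ hν.le)
    hα hβ (S.image f) hsep (by
    intro z hz'
    obtain ⟨z, hzS, rfl⟩ := Finset.mem_image.1 hz'
    obtain ⟨h2, h3, h4⟩ := hz z hzS
    refine ⟨⟨?_, ?_⟩, h3, hsing z.1 z.2 h4⟩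
    · exact mul_le_mul_of_nonneg_left h2.1 hν.le
    · exact mul_le_mul_of_nonneg_left h2.2 hν.le)
  rw [hcard, ← mul_sub] at h1
  set J : ℝ := ∫ t in Ioo (α - 2 * r ^ 2 / ν) (β + 2 * r ^ 2 / ν), (1 + enstrophy (u t)) with hJ
  set IY : ℝ := ∫ t in Ioo (α - 2 * r ^ 2 / ν) (β + 2 * r ^ 2 / ν), enstrophy (u t) with hIY
  -- the change of variables
  have ha0 : 0 ≤ α - 2 * r ^ 2 / ν := by
    have : 2 * r ^ 2 / ν < α := by
      rw [div_lt_iff₀ hν]
      linarith
    linarith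
  have hb0 : β + 2 * r ^ 2 / ν ≤ T := by
    have e1 : ν * (2 * r ^ 2 / ν) = 2 * r ^ 2 := by field_simp
    have e2 : ν * (β + 2 * r ^ 2 / ν) < ν * T := by
      rw [mul_add, e1]
      exact hβ
    exact (lt_of_mul_lt_mul_left e2 hν.le).le
  have hr2 : 0 ≤ 2 * r ^ 2 / ν := by positivity
  have hab : α - 2 * r ^ 2 / ν ≤ β + 2 * r ^ 2 / ν := by linarith
  have hion := enst_ion hT ha0 hb0
  have h1i : IntegrableOn (fun _ : ℝ => (1 : ℝ)) (Ioo (α - 2 * r ^ 2 / ν) (β + 2 * r ^ 2 / ν)) :=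
    integrableOn_const (by simp)
  have hchg : ∀ g : ℝ → ℝ, ∫ t in Ioo (ν * α - 2 * r ^ 2) (ν * β + 2 * r ^ 2), g (t / ν) =
      ν * ∫ t in Ioo (α - 2 * r ^ 2 / ν) (β + 2 * r ^ 2 / ν), g t := by
    intro g
    have e1 : ν * α - 2 * r ^ 2 = ν * (α - 2 * r ^ 2 / ν) := by field_simp
    have e2 : ν * β + 2 * r ^ 2 = ν * (β + 2 * r ^ 2 / ν) := by field_simp
    rw [e1, e2, ← integral_Ioc_eq_integral_Ioo, ← integral_Ioc_eq_integral_Ioo,
      ← intervalIntegral.integral_of_le hab,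
      ← intervalIntegral.integral_of_le (mul_le_mul_of_nonneg_left hab hν.le)]
    have e3 := intervalIntegral.integral_comp_div (a := ν * (α - 2 * r ^ 2 / ν))
      (b := ν * (β + 2 * r ^ 2 / ν)) g hν.ne'
    rw [e3, mul_div_cancel_left₀ _ hν.ne', mul_div_cancel_left₀ _ hν.ne', smul_eq_mul]
  have hcv : ∫ t in Ioo (ν * α - 2 * r ^ 2) (ν * β + 2 * r ^ 2),
      (1 + enstrophy (fun x => ν⁻¹ • u (t / ν) x)) =
      ν * ∫ t in Ioo (α - 2 * r ^ 2 / ν) (β + 2 * r ^ 2 / ν), (1 + ν⁻¹ ^ 2 * enstrophy (u t)) := by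
    simp only [enstrophy_sm]
    exact hchg (fun t => 1 + ν⁻¹ ^ 2 * enstrophy (u t))
  have hcv2 : ∫ t in Ioo (ν * α - 2 * r ^ 2) (ν * β + 2 * r ^ 2),
      (enstrophy (fun x => ν⁻¹ • u (t / ν) x)) = ν⁻¹ * IY := by
    simp only [enstrophy_sm]
    rw [hchg (fun t => ν⁻¹ ^ 2 * enstrophy (u t)), integral_const_mul]
    show ν * (ν⁻¹ ^ 2 * IY) = ν⁻¹ * IY
    field_simp
  have hle : ∫ t in Ioo (α - 2 * r ^ 2 / ν) (β + 2 * r ^ 2 / ν), (1 + ν⁻¹ ^ 2 * enstrophy (u t)) ≤
      (1 + ν⁻¹ ^ 2) * J := by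
    rw [hJ, ← integral_const_mul]
    apply integral_mono_of_nonneg
    · exact Filter.Eventually.of_forall fun t => by
        have := enst_nn (u t)
        positivity
    · exact (h1i.add hion).const_mul _
    · refine Filter.Eventually.of_forall fun t => ?_
      have := enst_nn (u t)
      have h5 : 0 ≤ ν⁻¹ ^ 2 := by positivity
      show 1 + ν⁻¹ ^ 2 * enstrophy (u t) ≤ (1 + ν⁻¹ ^ 2) * (1 + enstrophy (u t))
      nlinarith
  rw [hcv, hcv2] at h1
  have hIY0 : 0 ≤ IY := integral_nonneg fun t => enst_nn _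
  have hJ0 : 0 ≤ J := integral_nonneg fun t => by
    have := enst_nn (u t)
    show 0 ≤ 1 + enstrophy (u t)
    linarith
  have hR0 : 0 ≤ r ^ (-(2 / 23) : ℝ) := by positivity
  have hc1 : ν⁻¹ ≤ c := by
    rw [hc]
    have : 0 ≤ ν * (1 + ν⁻¹ ^ 2) + ν ^ 2 := by positivity
    linarith
  have hc2 : ν * (1 + ν⁻¹ ^ 2) ≤ c := by
    rw [hc]
    have : 0 ≤ ν⁻¹ + ν ^ 2 := by positivity
    linarith
  have hc3 : ν ^ 2 ≤ c := by
    rw [hc]
    have : 0 ≤ ν⁻¹ + ν * (1 + ν⁻¹ ^ 2) := by positivity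
    linarith
  have hm1 : r ^ (-(2 / 23) : ℝ) * (ν * ∫ t in Ioo (α - 2 * r ^ 2 / ν) (β + 2 * r ^ 2 / ν),
      (1 + ν⁻¹ ^ 2 * enstrophy (u t))) ≤ c * (r ^ (-(2 / 23) : ℝ) * J) := by
    calc r ^ (-(2 / 23) : ℝ) * (ν * ∫ t in Ioo (α - 2 * r ^ 2 / ν) (β + 2 * r ^ 2 / ν),
          (1 + ν⁻¹ ^ 2 * enstrophy (u t))) ≤ r ^ (-(2 / 23) : ℝ) * (ν * ((1 + ν⁻¹ ^ 2) * J)) := by
          gcongr
      _ = (ν * (1 + ν⁻¹ ^ 2)) * (r ^ (-(2 / 23) : ℝ) * J) := by ring
      _ ≤ _ := mul_le_mul_of_nonneg_right hc2 (by positivity)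
  have hm2 : (ν * (β - α) / r ^ 2) ^ 2 ≤ c * ((β - α) / r ^ 2) ^ 2 := by
    calc (ν * (β - α) / r ^ 2) ^ 2 = ν ^ 2 * ((β - α) / r ^ 2) ^ 2 := by ring
      _ ≤ _ := mul_le_mul_of_nonneg_right hc3 (by positivity)
  have hm3 : ν⁻¹ * IY ≤ c * IY := mul_le_mul_of_nonneg_right hc1 hIY0
  refine h1.trans ?_
  have hm4 : min (r ^ (-(2 / 23) : ℝ) * (ν * ∫ t in Ioo (α - 2 * r ^ 2 / ν) (β + 2 * r ^ 2 / ν),
      (1 + ν⁻¹ ^ 2 * enstrophy (u t)))) ((ν * (β - α) / r ^ 2) ^ 2) ≤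
      c * min (r ^ (-(2 / 23) : ℝ) * J) (((β - α) / r ^ 2) ^ 2) := by
    rw [mul_min_of_nonneg _ _ hc0.le]
    exact min_le_min hm1 hm2
  calc C * (ν⁻¹ * IY + min (r ^ (-(2 / 23) : ℝ) *
      (ν * ∫ t in Ioo (α - 2 * r ^ 2 / ν) (β + 2 * r ^ 2 / ν),
      (1 + ν⁻¹ ^ 2 * enstrophy (u t)))) ((ν * (β - α) / r ^ 2) ^ 2)) ≤
      C * (c * IY + c * min (r ^ (-(2 / 23) : ℝ) * J) (((β - α) / r ^ 2) ^ 2)) :=
        mul_le_mul_of_nonneg_left (add_le_add hm3 hm4) hC.le
    _ = _ := by ring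

end Pool.Agent.Y496.NS.TU
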