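import Pool.Agent.Y8.Stm8
import Pool.Agent.Y655.NS.WinL

/-!
The count on a short time interval, fast points counted by the energy (job S_WINL2 of helper8).
-/

open MeasureTheory Set Metric
open scoped ContDiff

namespace Pool.Agent.Y496.NS.WinL2

open H459R3.NS W221.NS Pool.Agent.Y8 Pool.Agent.Y655.NS

/-- The four classes of points which are carried away. -/
theorem count5 {δ c : ℝ} {κ₀ : ℕ} (hδ : 0 < δ) (hc : 0 < c) (hC : S_C12) (hF : S_CE) :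
    ∃ C₃ : ℝ, 0 < C₃ ∧
    ∀ (T E D : ℝ) (G : Set ℝ) (u : ℝ → V → V) (p : ℝ → V → ℝ), Turb 1 T E D G u p →
    ∀ (n j : ℕ) (S : Finset (ℝ × V)), Sep (rr n) S →
      (∀ z ∈ S, 0 ≤ z.1 - rr n ^ 2 ∧ z.1 + rr n ^ 2 ≤ T ∧ z.2 ∈ cube) →
      (∀ z ∈ S, ∀ w ∈ S, |z.1 - w.1| ≤ rr n ^ 2) →
      (∀ z ∈ S, δ / rr n ≤ ∫ t in II n z.1, NN2 n (u t) z.2 ∨
          δ * (4 ^ j / rr n) ≤ ∫ t in II n z.1, NN1 n (2 * j + κ₀) (u t) z.2 ∨
          δ * (4 ^ j / rr n) ≤ ∫ t in II n z.1, NF n (2 * j + κ₀) (u t) z.2 ∨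
          c * (rr n ^ 2 * (4 ^ j / rr n)) ≤ ∫ t in II n z.1, ‖mo (rr n) (u t) z.2‖) →
        (S.card : ℝ) ≤ C₃ * (D + E ^ 2 * (16 ^ j)⁻¹) * 2 ^ n := by
  obtain ⟨C₁, hC₁, h12⟩ := hC
  obtain ⟨C₂, hC₂, hF⟩ := hF δ c κ₀ hδ hc
  refine ⟨C₁ / δ + C₁ * 2 ^ κ₀ / δ + 2 * C₂, by positivity, ?_⟩
  intro T E D G u p hu n j S hS hz hzw h4
  classical
  have hr := rr_pos500 n
  have hri := rr_inv500 n
  have hD := turb_D hu
  set P2 : ℝ × V → Prop := fun z => δ / rr n ≤ ∫ t in II n z.1, NN2 n (u t) z.2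
  set P1 : ℝ × V → Prop := fun z =>
    δ * (4 ^ j / rr n) ≤ ∫ t in II n z.1, NN1 n (2 * j + κ₀) (u t) z.2
  set PF : ℝ × V → Prop := fun z =>
    δ * (4 ^ j / rr n) ≤ ∫ t in II n z.1, NF n (2 * j + κ₀) (u t) z.2
  set PM : ℝ × V → Prop := fun z =>
    c * (rr n ^ 2 * (4 ^ j / rr n)) ≤ ∫ t in II n z.1, ‖mo (rr n) (u t) z.2‖
  have hcov : S ⊆ (S.filter P2 ∪ S.filter P1) ∪ (S.filter PF ∪ S.filter PM) := by
    intro z hzS
    simp only [Finset.mem_union, Finset.mem_filter]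
    rcases h4 z hzS with h4 | h4 | h4 | h4
    · exact Or.inl (Or.inl ⟨hzS, h4⟩)
    · exact Or.inl (Or.inr ⟨hzS, h4⟩)
    · exact Or.inr (Or.inl ⟨hzS, h4⟩)
    · exact Or.inr (Or.inr ⟨hzS, h4⟩)
  have hbox : ∀ P : ℝ × V → Prop, ∀ z ∈ S.filter P,
      0 ≤ z.1 - rr n ^ 2 ∧ z.1 + rr n ^ 2 ≤ T ∧ z.2 ∈ cube :=
    fun P z hzS => hz z (Finset.mem_filter.1 hzS).1
  have hclose : ∀ P : ℝ × V → Prop, ∀ z ∈ S.filter P, ∀ w ∈ S.filter P,
      |z.1 - w.1| ≤ rr n ^ 2 :=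
    fun P z hzS w hwS => hzw z (Finset.mem_filter.1 hzS).1 w (Finset.mem_filter.1 hwS).1
  have hsep : ∀ P : ℝ × V → Prop, Sep (rr n) (S.filter P) := fun P =>
    sep_mono500 hS (Finset.filter_subset _ _)
  have hE0 : 0 ≤ E ^ 2 * ((16:ℝ) ^ j)⁻¹ := by positivity
  set A : ℝ := D + E ^ 2 * (16 ^ j)⁻¹ with hAdef
  have hDA : D ≤ A := by rw [hAdef]; linarith
  have hEA : E ^ 2 * (16 ^ j)⁻¹ ≤ A := by rw [hAdef]; linarith
  have hA : 0 ≤ A := hD.trans hDA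
  -- class 2
  have c2 : ((S.filter P2).card : ℝ) ≤ C₁ * A / δ * 2 ^ n := by
    have h1 := (h12 T E D G u p hu n (S.filter P2) (hsep P2) (hbox P2)).1
    have h2 := markov500 (a := δ / rr n) (by positivity)
      (fun z hzS => (Finset.mem_filter.1 hzS).2) h1
    refine h2.trans ?_
    rw [← hri]
    have : C₁ * D / rr n ^ 2 / (δ / rr n) = C₁ * D / δ * (rr n)⁻¹ := by
      field_simp
    rw [this]
    gcongr
  -- class 1
  have c1 : ((S.filter P1).card : ℝ) ≤ C₁ * 2 ^ κ₀ * A / δ * 2 ^ n := by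
    have h1 := (h12 T E D G u p hu n (S.filter P1) (hsep P1) (hbox P1)).2 (2 * j + κ₀)
    have h2 := markov500 (a := δ * (4 ^ j / rr n)) (by positivity)
      (fun z hzS => (Finset.mem_filter.1 hzS).2) h1
    refine h2.trans ?_
    rw [← hri]
    have h4 : (2 : ℝ) ^ (2 * j + κ₀) = 4 ^ j * 2 ^ κ₀ := by
      rw [pow_add, pow_mul]; norm_num
    have : C₁ * 2 ^ (2 * j + κ₀) * D / rr n ^ 2 / (δ * (4 ^ j / rr n))
        = C₁ * 2 ^ κ₀ * D / δ * (rr n)⁻¹ := by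
      rw [h4]
      field_simp
    rw [this]
    gcongr
  -- classes 3 and 4
  have hCE : C₂ * E ^ 2 * (16 ^ j)⁻¹ * 2 ^ n ≤ C₂ * A * 2 ^ n := by
    have : C₂ * E ^ 2 * (16 ^ j)⁻¹ = C₂ * (E ^ 2 * (16 ^ j)⁻¹) := by ring
    rw [this]
    gcongr
  have cF : ((S.filter PF).card : ℝ) ≤ C₂ * A * 2 ^ n :=
    (hF T E D G u p hu n j (S.filter PF) (hsep PF) (hbox PF) (hclose PF)
      (Or.inl fun z hzS => (Finset.mem_filter.1 hzS).2)).trans hCE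
  have cM : ((S.filter PM).card : ℝ) ≤ C₂ * A * 2 ^ n :=
    (hF T E D G u p hu n j (S.filter PM) (hsep PM) (hbox PM) (hclose PM)
      (Or.inr fun z hzS => (Finset.mem_filter.1 hzS).2)).trans hCE
  have hcard : (S.card : ℝ) ≤ (S.filter P2).card + (S.filter P1).card
      + ((S.filter PF).card + (S.filter PM).card) := by
    have h1 := Finset.card_le_card hcov
    have h2 := Finset.card_union_le (S.filter P2 ∪ S.filter P1) (S.filter PF ∪ S.filter PM)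
    have h3 := Finset.card_union_le (S.filter P2) (S.filter P1)
    have h4 := Finset.card_union_le (S.filter PF) (S.filter PM)
    have h5 : S.card ≤ (S.filter P2).card + (S.filter P1).card
      + ((S.filter PF).card + (S.filter PM).card) := by omega
    exact_mod_cast h5
  have e : (C₁ / δ + C₁ * 2 ^ κ₀ / δ + 2 * C₂) * A * 2 ^ n =
      C₁ * A / δ * 2 ^ n + C₁ * 2 ^ κ₀ * A / δ * 2 ^ n + (C₂ * A * 2 ^ n + C₂ * A * 2 ^ n) := by
    ring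
  rw [e]
  linarith

theorem t_WINL2 : S_WFL → S_SLOW → S_ALTH → S_C12 → S_CE → S_WINL2 := by
  intro hW hSl hA hC hF E
  classical
  obtain ⟨K, hK, hW⟩ := hW
  obtain ⟨δ, c, κ₀, hδ, hc, hA⟩ := hA
  obtain ⟨n₀, hA⟩ := hA E
  obtain ⟨C₁, hC₁, h4⟩ := count5 (κ₀ := κ₀) hδ hc hC hF
  obtain ⟨C₂, hC₂, hSl⟩ := hSl (K * |E| + 1)
  refine ⟨C₁ * (1 + E ^ 2) + C₂, n₀, by positivity, ?_⟩
  intro T D G u p hu n i α β hn hi hab hα hβ S hS hz
  have hD := turb_D hu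
  have hr := rr_pos500 n
  have hr1 : rr n ≤ 1 := pow_le_one₀ (by norm_num) (by norm_num)
  have hr2 : 0 < rr n ^ 2 := by positivity
  have h16 : (0:ℝ) < (16 ^ i)⁻¹ := by positivity
  have h2n : (1 : ℝ) ≤ 2 ^ n := one_le_pow₀ (by norm_num)
  rcases S.eq_empty_or_nonempty with hSe | ⟨z₀, hz₀⟩
  · rw [hSe, Finset.card_empty, Nat.cast_zero]
    positivity
  obtain ⟨⟨hz1, hz2⟩, -, -⟩ := hz z₀ hz₀
  have hβ0 : 0 < β := by linarith
  have hrni : rr (n + i) ^ 2 < rr n ^ 2 := by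
    have h5 : rr (n + i) < rr n :=
      pow_lt_pow_right_of_lt_one₀ (by norm_num) (by norm_num) (by omega)
    exact pow_lt_pow_left₀ h5 (rr_pos500 _).le two_ne_zero
  obtain ⟨C', hC', hW⟩ := hW E (rr n) hr hr1
  obtain ⟨X, Y, hX⟩ := hW T D G u p hu β ⟨hβ0, by linarith⟩
  set Sl : ℝ × V → Prop := fun z =>
    ∀ y, ‖X z.1 y - z.2‖ < rr n / 8 → ‖y - X z.1 y‖ ≤ rr n / 8 with hSldef
  have c1 : ((S.filter Sl).card : ℝ) ≤ C₂ * D * 2 ^ n := by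
    refine hSl T E D G u p hu n i α β hi hab hα hβ X Y _ C' ?_ ?_ hX (S.filter Sl)
      (sep_mono500 hS (Finset.filter_subset _ _)) ?_
    · positivity
    · exact B_le (by positivity) hr hr1
    · intro z hzS
      obtain ⟨h5, h6⟩ := Finset.mem_filter.1 hzS
      obtain ⟨h7, h8, h9⟩ := hz z h5
      exact ⟨h7, h8, h9, h6⟩
  have c2 : ((S.filter (fun z => ¬ Sl z)).card : ℝ) ≤
      C₁ * (D + E ^ 2 * (16 ^ i)⁻¹) * 2 ^ n := by
    refine h4 T E D G u p hu n i _ (sep_mono500 hS (Finset.filter_subset _ _)) ?_ ?_ ?_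
    · intro z hzS
      obtain ⟨h5, -⟩ := Finset.mem_filter.1 hzS
      obtain ⟨h7, h8, -⟩ := hz z h5
      exact ⟨by linarith [h7.1], by linarith [h7.2], h8⟩
    · intro z hzS w hwS
      obtain ⟨h5, -⟩ := Finset.mem_filter.1 hzS
      obtain ⟨h7, -, -⟩ := hz z h5
      obtain ⟨h8, -⟩ := Finset.mem_filter.1 hwS
      obtain ⟨h9, -, -⟩ := hz w h8
      rw [abs_le]
      constructor
      · linarith [h7.1, h9.2]
      · linarith [h7.2, h9.1]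
    · intro z hzS
      obtain ⟨h5, h6⟩ := Finset.mem_filter.1 hzS
      obtain ⟨h7, h8, -⟩ := hz z h5
      have h6' : ∃ y, ‖X z.1 y - z.2‖ < rr n / 8 ∧ rr n / 8 < ‖y - X z.1 y‖ := by
        by_contra hcon
        apply h6
        intro y hy
        by_contra h9
        exact hcon ⟨y, hy, not_le.1 h9⟩
      obtain ⟨y, hy1, hy2⟩ := h6'
      have hb : |β - z.1| ≤ rr (n + i) ^ 2 := by
        rw [abs_of_nonneg (by linarith [h7.2])]
        linarith [h7.1]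
      refine hA T D G u p hu n i hn z.1 z.2 (by linarith [h7.1]) (by linarith [h7.2])
        (fun t => X t y) (fun t => Y t y) _ C' (hX.path y) hy1.le
        ⟨β, hb, by linarith, ?_⟩
      change rr n / 8 < ‖X β y - X z.1 y‖
      rw [hX.lab]
      exact hy2
  have hcard : (S.card : ℝ) = (S.filter Sl).card + (S.filter (fun z => ¬ Sl z)).card := by
    have := Finset.card_filter_add_card_filter_not (s := S) Sl
    exact_mod_cast this.symm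
  have c3 : C₂ * D * 2 ^ n ≤ C₂ * (D + (16 ^ i)⁻¹) * 2 ^ n := by
    have h5 : D ≤ D + (16 ^ i)⁻¹ := by linarith
    gcongr
  have c4 : C₁ * (D + E ^ 2 * (16 ^ i)⁻¹) * 2 ^ n ≤ C₁ * (1 + E ^ 2) * (D + (16 ^ i)⁻¹) * 2 ^ n := by
    have h5 : D + E ^ 2 * (16 ^ i)⁻¹ ≤ (1 + E ^ 2) * (D + (16 ^ i)⁻¹) := by
      nlinarith [sq_nonneg E, mul_nonneg (sq_nonneg E) hD]
    calc C₁ * (D + E ^ 2 * (16 ^ i)⁻¹) * 2 ^ n ≤ C₁ * ((1 + E ^ 2) * (D + (16 ^ i)⁻¹)) * 2 ^ n := by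
          gcongr
      _ = _ := by ring
  rw [hcard]
  have e : (C₁ * (1 + E ^ 2) + C₂) * (D + (16 ^ i)⁻¹) * 2 ^ n =
      C₁ * (1 + E ^ 2) * (D + (16 ^ i)⁻¹) * 2 ^ n + C₂ * (D + (16 ^ i)⁻¹) * 2 ^ n := by ring
  rw [e]
  linarith

end Pool.Agent.Y496.NS.WinL2
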