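import Pool.Agent.Y8.Stm
import Pool.Agent.W12.MD.GROW
import Pool.Agent.W135.MD.FarA

/-!
Poincare inequalities on dyadic balls by telescoping (helper496, job 16 of helper8).
-/

set_option autoImplicit false

open MeasureTheory Set Metric
open scoped ContDiff

namespace Pool.Agent.Y496.NS

open H459R3.NS W221.NS Pool.Agent.Y8 Pool.Agent.W12.MD

theorem int_shift (f : V → ℝ) (x : V) (ρ : ℝ) :
    ∫ z in ball (0 : V) ρ, f (x + z) = ∫ y in ball x ρ, f y := by
  have h := Pool.Agent.W135.MD.int_ball_scale f x (r := 1) one_pos ρ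
  simpa using h

theorem sm_shift {u : V → V} (hu : ContDiff ℝ ∞ u) (x : V) : ContDiff ℝ ∞ (fun z => u (x + z)) :=
  hu.comp (contDiff_const.add contDiff_id)

theorem MM_shift (u : V → V) (x : V) (r : ℝ) :
    MM (fun z => u (x + z)) r = mo r u x := rfl

theorem B2_shift {u : V → V} (hu : ContDiff ℝ ∞ u) (x : V) (ρ : ℝ) :
    B2 0 ρ (fun z => u (x + z)) = B2 x ρ u := by
  unfold B2
  rw [← int_shift (fun z => gsq u z) x ρ]
  refine setIntegral_congr_fun (s := ball (0 : V) ρ) measurableSet_ball fun z _ => ?_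
  have h := Pool.Agent.W135.MD.gsq_scale (u := u) (v := fun z => u (x + z)) (x := x) (c := 0)
    (r := 1) hu (fun z i => by simp) z
  simpa using h

theorem DD_shift (u : V → V) (x : V) (r : ℝ) (M : V) :
    Pool.Agent.W12.MD.DD (fun z => u (x + z)) r M = A2 x (2 * r) (fun y => u y - M) := by
  unfold Pool.Agent.W12.MD.DD A2
  rw [← int_shift (fun z => nsq (fun y => u y - M) z) x (2 * r)]
  rfl

theorem B2_nn (x : V) (ρ : ℝ) (v : V → V) : 0 ≤ B2 x ρ v :=
  setIntegral_nonneg measurableSet_ball fun _ _ =>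
    Finset.sum_nonneg fun _ _ => Finset.sum_nonneg fun _ _ => sq_nonneg _

theorem gsq_cont {u : V → V} (hu : ContDiff ℝ ∞ u) : Continuous (gsq u) := by
  unfold gsq
  exact continuous_finsetSum _ fun i _ => continuous_finsetSum _ fun j _ =>
    (smooth_pd (smooth_comp hu i) j).continuous.pow 2

theorem B2_mono {u : V → V} (hu : ContDiff ℝ ∞ u) {x y : V} {ρ σ : ℝ} (h : ball x ρ ⊆ ball y σ) :
    B2 x ρ u ≤ B2 y σ u :=
  setIntegral_mono_set (intB (gsq_cont hu) _ _)
    (Filter.Eventually.of_forall fun z => Finset.sum_nonneg fun _ _ => Finset.sum_nonneg fun _ _ =>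
      sq_nonneg _) (Filter.Eventually.of_forall h)

theorem sub_sm {u : V → V} (hu : ContDiff ℝ ∞ u) (M : V) : ContDiff ℝ ∞ (fun y => u y - M) :=
  hu.sub contDiff_const

theorem A2_mono {u : V → V} (hu : ContDiff ℝ ∞ u) {x y : V} {ρ σ : ℝ} (h : ball x ρ ⊆ ball y σ) :
    A2 x ρ u ≤ A2 y σ u :=
  setIntegral_mono_set (intB (nsq_cont hu) _ _)
    (Filter.Eventually.of_forall fun z => nsq_nonneg _ _) (Filter.Eventually.of_forall h)

theorem dev' {C : ℝ} (hP : ∀ v : V → V, ContDiff ℝ ∞ v →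
    (∀ i, ∫ z, th z * v z i = 0) → A2 0 2 v ≤ C * B2 0 2 v)
    {u : V → V} (hu : ContDiff ℝ ∞ u) (x : V) {r : ℝ} (hr : 0 < r) :
    A2 x (2 * r) (fun y => u y - mo r u x) ≤ C * r ^ 2 * B2 x (2 * r) u := by
  have h := dev C hP (sm_shift hu x) hr
  rw [MM_shift, DD_shift, B2_shift hu] at h
  exact h

theorem mean' {C : ℝ} (hP : ∀ v : V → V, ContDiff ℝ ∞ v →
    (∀ i, ∫ z, th z * v z i = 0) → A2 0 2 v ≤ C * B2 0 2 v) {Ct : ℝ} (hCt0 : 0 < Ct)
    (hCt : ∀ z, th z ≤ Ct)
    {u : V → V} (hu : ContDiff ℝ ∞ u) (x : V) {r : ℝ} (hr : 0 < r) (i : Fin 3) :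
    (mo (2 * r) u x i - mo r u x i) ^ 2 ≤ Ct * C * (8 * r)⁻¹ * B2 x (2 * r) u := by
  have h := mean_step C hP hCt0 hCt (sm_shift hu x) hr i
  rw [MM_shift, MM_shift, B2_shift hu] at h
  exact h

/-- the normalised local energy -/
noncomputable def bb (u : V → V) (x : V) (r : ℝ) (j : ℕ) : ℝ :=
  (2 ^ j * r)⁻¹ * B2 x (2 ^ (j + 1) * r) u

theorem bb_nn (u : V → V) (x : V) {r : ℝ} (hr : 0 < r) (j : ℕ) : 0 ≤ bb u x r j :=
  mul_nonneg (by positivity) (B2_nn _ _ _)

theorem tele {C : ℝ} (hC : 0 < C) (hP : ∀ v : V → V, ContDiff ℝ ∞ v →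
    (∀ i, ∫ z, th z * v z i = 0) → A2 0 2 v ≤ C * B2 0 2 v) {Ct : ℝ} (hCt0 : 0 < Ct)
    (hCt : ∀ z, th z ≤ Ct)
    {u : V → V} (hu : ContDiff ℝ ∞ u) (x : V) {r : ℝ} (hr : 0 < r) (i : Fin 3) (k : ℕ) :
    (mo (2 ^ k * r) u x i - mo r u x i) ^ 2 ≤
      2 * (Ct * C) * ∑ j ∈ Finset.range k, (3 / 2 : ℝ) ^ (k - j) * bb u x r j := by
  induction k with
  | zero => simp
  | succ k ih =>
    have h1 := mean' hP hCt0 hCt hu x (r := 2 ^ k * r) (by positivity) i
    have e1 : (2 : ℝ) * (2 ^ k * r) = 2 ^ (k + 1) * r := by ring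
    rw [e1] at h1
    have h2 : (mo (2 ^ (k + 1) * r) u x i - mo (2 ^ k * r) u x i) ^ 2 ≤ Ct * C * bb u x r k := by
      refine h1.trans ?_
      unfold bb
      have h3 : (8 * (2 ^ k * r))⁻¹ ≤ (2 ^ k * r)⁻¹ := by
        apply inv_anti₀ (by positivity)
        have : 0 < 2 ^ k * r := by positivity
        linarith
      have h4 := B2_nn x (2 ^ (k + 1) * r) u
      calc Ct * C * (8 * (2 ^ k * r))⁻¹ * B2 x (2 ^ (k + 1) * r) u
          ≤ Ct * C * (2 ^ k * r)⁻¹ * B2 x (2 ^ (k + 1) * r) u := by gcongr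
        _ = Ct * C * ((2 ^ k * r)⁻¹ * B2 x (2 ^ (k + 1) * r) u) := by ring
    have h5 : (mo (2 ^ (k + 1) * r) u x i - mo r u x i) ^ 2 ≤
        3 / 2 * (mo (2 ^ k * r) u x i - mo r u x i) ^ 2 +
          3 * (mo (2 ^ (k + 1) * r) u x i - mo (2 ^ k * r) u x i) ^ 2 := by
      nlinarith [sq_nonneg ((mo (2 ^ k * r) u x i - mo r u x i) -
        2 * (mo (2 ^ (k + 1) * r) u x i - mo (2 ^ k * r) u x i))]
    rw [Finset.sum_range_succ]
    have e2 : ∑ j ∈ Finset.range k, (3 / 2 : ℝ) ^ (k + 1 - j) * bb u x r j =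
        3 / 2 * ∑ j ∈ Finset.range k, (3 / 2 : ℝ) ^ (k - j) * bb u x r j := by
      rw [Finset.mul_sum]
      refine Finset.sum_congr rfl fun j hj => ?_
      have : k + 1 - j = (k - j) + 1 := by
        have := Finset.mem_range.1 hj
        omega
      rw [this, pow_succ]
      ring
    rw [e2]
    have e3 : k + 1 - k = 1 := by omega
    rw [e3, pow_one]
    have hb := bb_nn u x hr k
    nlinarith [mul_pos hCt0 hC]

theorem A2_split {u : V → V} (hu : ContDiff ℝ ∞ u) (x : V) {ρ : ℝ} (hρ : 0 < ρ) (M N : V) :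
    A2 x ρ (fun y => u y - M) ≤ 2 * A2 x ρ (fun y => u y - N) +
      2 * (2 * ρ) ^ 3 * ∑ i, (N i - M i) ^ 2 := by
  have hvol : volume.real (ball x ρ) = (2 * ρ) ^ 3 := by
    rw [Measure.real, Real.volume_pi_ball x hρ]
    simp only [Fintype.card_fin]
    rw [ENNReal.toReal_ofReal (by positivity)]
  unfold A2
  have i1 : IntegrableOn (fun z => nsq (fun y => u y - N) z) (ball x ρ) :=
    intB (nsq_cont (sub_sm hu N)) _ _
  have i2 : IntegrableOn (fun _ : V => ∑ i, (N i - M i) ^ 2) (ball x ρ) :=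
    intB continuous_const _ _
  have e : 2 * (∫ z in ball x ρ, nsq (fun y => u y - N) z) +
      2 * (2 * ρ) ^ 3 * ∑ i, (N i - M i) ^ 2 =
      ∫ z in ball x ρ, (2 * nsq (fun y => u y - N) z + 2 * ∑ i, (N i - M i) ^ 2) := by
    rw [integral_add (i1.const_mul 2) (i2.const_mul 2), integral_const_mul, integral_const_mul,
      setIntegral_const, hvol, smul_eq_mul]
    ring
  rw [e]
  refine setIntegral_mono (intB (nsq_cont (sub_sm hu M)) _ _)
    ((i1.const_mul 2).add (i2.const_mul 2)) fun z => ?_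
  unfold nsq
  rw [Finset.mul_sum, Finset.mul_sum, ← Finset.sum_add_distrib]
  refine Finset.sum_le_sum fun i _ => ?_
  show (u z i - M i) ^ 2 ≤ 2 * (u z i - N i) ^ 2 + 2 * (N i - M i) ^ 2
  nlinarith [sq_nonneg ((u z i - N i) - (N i - M i))]

theorem t_DYPO (hP : S_POINC) : S_DYPO := by
  obtain ⟨C, hC, hP⟩ := hP
  obtain ⟨Ct, hCt0, hCt⟩ := th_bdd
  refine ⟨2 * C + 96 * (Ct * C), by positivity, fun u hu x r hr k => ?_⟩
  show A2 x (2 ^ k * r) (fun y => u y - mo r u x) ≤ (2 * C + 96 * (Ct * C)) * (2 ^ k * r) ^ 3 *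
    ∑ j ∈ Finset.range (k + 1), (3 / 2) ^ (k - j) * bb u x r j
  set R := 2 ^ k * r with hR
  have hR0 : 0 < R := by positivity
  have h1 := A2_split hu x hR0 (mo r u x) (mo R u x)
  have h2 : A2 x R (fun y => u y - mo R u x) ≤ C * R ^ 3 * bb u x r k := by
    refine (A2_mono (sub_sm hu _) (ball_subset_ball (by linarith : R ≤ 2 * R))).trans ?_
    refine (dev' hP hu x hR0).trans (le_of_eq ?_)
    unfold bb
    have e : (2 : ℝ) ^ (k + 1) * r = 2 * R := by rw [hR]; ring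
    rw [e, ← hR]
    field_simp
  set S := ∑ j ∈ Finset.range k, (3 / 2 : ℝ) ^ (k - j) * bb u x r j with hS
  have hS0 : 0 ≤ S := Finset.sum_nonneg fun j _ => mul_nonneg (by positivity) (bb_nn u x hr j)
  have h3 : ∑ i, (mo R u x i - mo r u x i) ^ 2 ≤ 3 * (2 * (Ct * C) * S) := by
    have : ∑ i : Fin 3, (mo R u x i - mo r u x i) ^ 2 ≤ ∑ i : Fin 3, 2 * (Ct * C) * S :=
      Finset.sum_le_sum fun i _ => tele hC hP hCt0 hCt hu x hr i k
    simpa using this
  have hb := bb_nn u x hr k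
  rw [Finset.sum_range_succ, ← hS, Nat.sub_self, pow_zero, one_mul]
  have hR3 : 0 < R ^ 3 := by positivity
  calc A2 x R (fun y => u y - mo r u x)
      ≤ 2 * (C * R ^ 3 * bb u x r k) + 2 * (2 * R) ^ 3 * (3 * (2 * (Ct * C) * S)) := by
        refine h1.trans ?_
        gcongr
    _ = R ^ 3 * (2 * C * bb u x r k + 96 * (Ct * C) * S) := by ring
    _ ≤ R ^ 3 * ((2 * C + 96 * (Ct * C)) * (S + bb u x r k)) := by
        apply mul_le_mul_of_nonneg_left _ hR3.le
        have := mul_nonneg hC.le hS0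
        have := mul_nonneg (mul_pos hCt0 hC).le hb
        nlinarith
    _ = (2 * C + 96 * (Ct * C)) * R ^ 3 * (S + bb u x r k) := by ring

theorem mo_sub {u : V → V} (hu : ContDiff ℝ ∞ u) (y : V) (R : ℝ) (c : V) (i : Fin 3) :
    mo R u y i - c i = ∫ z, th z * (u (y + R • z) i - c i) := by
  have hc : Continuous (fun z => u (y + R • z) i) :=
    (smooth_comp hu i).continuous.comp (continuous_const.add (continuous_const_smul R))
  have e : ∀ z, th z * (u (y + R • z) i - c i) = th z * u (y + R • z) i - c i * th z :=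
    fun z => by ring
  simp_rw [e]
  have i1 : Integrable (fun z => c i * th z) := by
    have := th_mul_int (f := fun _ => c i) continuous_const
    simpa [mul_comm] using this
  rw [integral_sub (th_mul_int hc) i1, integral_const_mul, th_int, mul_one]
  rfl

/-- comparison of a mean with a constant -/
theorem mo_cmp {Ct : ℝ} (hCt : ∀ z, th z ≤ Ct) (hCt0 : 0 < Ct) {u : V → V} (hu : ContDiff ℝ ∞ u)
    (y : V) {R : ℝ} (hR : 0 < R) (c : V) (i : Fin 3) :
    (mo R u y i - c i) ^ 2 ≤ Ct * ((R ^ 3)⁻¹ * A2 y R (fun z => u z - c)) := by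
  have hc : Continuous (fun z => u (y + R • z) i - c i) :=
    ((smooth_comp hu i).continuous.comp
      (continuous_const.add (continuous_const_smul R))).sub continuous_const
  rw [mo_sub hu]
  refine (jensen hc).trans ?_
  refine (th_int_le hCt (hc.pow 2) (fun z => sq_nonneg _) le_rfl).trans ?_
  have e2 := Pool.Agent.W135.MD.int_ball_scale (fun z => (u z i - c i) ^ 2) y hR 1
  simp only [Pi.pow_apply]
  rw [e2, mul_one]
  gcongr
  unfold A2
  have hcc : Continuous (fun z => (u z i - c i) ^ 2) :=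
    ((smooth_comp hu i).continuous.sub continuous_const).pow 2
  refine setIntegral_mono (intB hcc _ _) (intB (nsq_cont (sub_sm hu c)) _ _) fun z => ?_
  exact Finset.single_le_sum (f := fun i => (u z i - c i) ^ 2) (fun i _ => sq_nonneg _)
    (Finset.mem_univ i)

theorem sqrt_pow_le (j : ℕ) : √(((2 : ℝ) ^ j)⁻¹) ≤ (3 / 4) ^ j := by
  apply Real.sqrt_le_iff.2
  refine ⟨by positivity, ?_⟩
  rw [← pow_mul, mul_comm, pow_mul, ← inv_pow]
  exact pow_le_pow_left₀ (by norm_num) (by norm_num) j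

theorem tele2 {C : ℝ} (hC : 0 < C) (hP : ∀ v : V → V, ContDiff ℝ ∞ v →
    (∀ i, ∫ z, th z * v z i = 0) → A2 0 2 v ≤ C * B2 0 2 v) {Ct : ℝ} (hCt0 : 0 < Ct)
    (hCt : ∀ z, th z ≤ Ct)
    {u : V → V} (hu : ContDiff ℝ ∞ u) (x y : V) {s r : ℝ} (hs : 0 < s) (i : Fin 3)
    (hyx : ‖y - x‖ ≤ r) (k : ℕ) (hk : 2 ^ k * s ≤ r) :
    |mo (2 ^ k * s) u y i - mo s u y i| ≤
      √(Ct * C * (s⁻¹ * B2 x (4 * r) u)) * ∑ j ∈ Finset.range k, (3 / 4 : ℝ) ^ j := by
  induction k with
  | zero => simp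
  | succ k ih =>
    have hr : 0 < r := lt_of_lt_of_le (by positivity) hk
    have hk' : 2 ^ k * s ≤ r := by
      have : 2 ^ k * s ≤ 2 ^ (k + 1) * s := by
        rw [pow_succ]
        have : 0 < 2 ^ k * s := by positivity
        linarith
      linarith
    have h1 := mean' hP hCt0 hCt hu y (r := 2 ^ k * s) (by positivity) i
    have e1 : (2 : ℝ) * (2 ^ k * s) = 2 ^ (k + 1) * s := by ring
    rw [e1] at h1
    have hB := B2_nn x (4 * r) u
    have hsub : B2 y (2 ^ (k + 1) * s) u ≤ B2 x (4 * r) u := by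
      apply B2_mono hu
      apply ball_subset_ball'
      rw [dist_eq_norm]
      linarith
    have h2 : |mo (2 ^ (k + 1) * s) u y i - mo (2 ^ k * s) u y i| ≤
        √(Ct * C * (s⁻¹ * B2 x (4 * r) u)) * (3 / 4) ^ k := by
      have h3 : (mo (2 ^ (k + 1) * s) u y i - mo (2 ^ k * s) u y i) ^ 2 ≤
          Ct * C * (s⁻¹ * B2 x (4 * r) u) * (2 ^ k)⁻¹ := by
        refine h1.trans ?_
        have h4 : (8 * (2 ^ k * s))⁻¹ ≤ (2 ^ k * s)⁻¹ := by
          apply inv_anti₀ (by positivity)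
          have : 0 < 2 ^ k * s := by positivity
          linarith
        calc Ct * C * (8 * (2 ^ k * s))⁻¹ * B2 y (2 ^ (k + 1) * s) u
            ≤ Ct * C * (2 ^ k * s)⁻¹ * B2 x (4 * r) u := by
              have := B2_nn y (2 ^ (k + 1) * s) u
              gcongr
          _ = Ct * C * (s⁻¹ * B2 x (4 * r) u) * (2 ^ k)⁻¹ := by
              rw [mul_inv]; ring
      rw [← Real.sqrt_sq_eq_abs]
      refine (Real.sqrt_le_sqrt h3).trans ?_
      rw [Real.sqrt_mul (by positivity)]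
      exact mul_le_mul_of_nonneg_left (sqrt_pow_le k) (Real.sqrt_nonneg _)
    rw [Finset.sum_range_succ, mul_add]
    have h5 : |mo (2 ^ (k + 1) * s) u y i - mo s u y i| ≤
        |mo (2 ^ k * s) u y i - mo s u y i| +
          |mo (2 ^ (k + 1) * s) u y i - mo (2 ^ k * s) u y i| := by
      have := abs_add_le (mo (2 ^ k * s) u y i - mo s u y i)
        (mo (2 ^ (k + 1) * s) u y i - mo (2 ^ k * s) u y i)
      rwa [sub_add_sub_cancel'] at this
    linarith [ih hk']

theorem exists_scale {s r : ℝ} (hs : 0 < s) (hsr : s ≤ r) :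
    ∃ k : ℕ, 2 ^ k * s ≤ r ∧ r < 2 * (2 ^ k * s) := by
  obtain ⟨n, hn1, hn2⟩ := exists_nat_pow_near (x := r / s) (y := 2)
    (by rw [le_div_iff₀ hs]; linarith) (by norm_num)
  refine ⟨n, by rwa [le_div_iff₀ hs] at hn1, ?_⟩
  rw [div_lt_iff₀ hs, pow_succ] at hn2
  linarith

theorem t_DYMO (hP : S_POINC) : S_DYMO := by
  obtain ⟨C, hC, hP⟩ := hP
  obtain ⟨Ct, hCt0, hCt⟩ := th_bdd
  refine ⟨8 * √(Ct * C), by positivity, fun u hu x y r s hs hsr hyx => ?_⟩
  have hr : 0 < r := lt_of_lt_of_le hs hsr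
  set B := s⁻¹ * B2 x (4 * r) u with hB
  have hB0 : 0 ≤ B := mul_nonneg (by positivity) (B2_nn _ _ _)
  rw [pi_norm_le_iff_of_nonneg (by positivity)]
  intro i
  rw [Pi.sub_apply, Real.norm_eq_abs]
  obtain ⟨k, hk1, hk2⟩ := exists_scale hs hsr
  set R := 2 ^ k * s with hR
  have hR0 : 0 < R := by positivity
  have h1 := tele2 hC hP hCt0 hCt hu x y hs i hyx k hk1
  rw [← hR, ← hB] at h1
  have hgeo : ∑ j ∈ Finset.range k, (3 / 4 : ℝ) ^ j ≤ 4 := by
    rw [geom_sum_eq (by norm_num)]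
    have : (0 : ℝ) ≤ (3 / 4) ^ k := by positivity
    rw [div_le_iff_of_neg (by norm_num)]
    linarith
  have h2 : (mo R u y i - mo r u x i) ^ 2 ≤ 16 * (Ct * C * B) := by
    refine (mo_cmp hCt hCt0 hu y hR0 (mo r u x) i).trans ?_
    have h3 : A2 y R (fun z => u z - mo r u x) ≤ A2 x (2 * r) (fun z => u z - mo r u x) := by
      apply A2_mono (sub_sm hu _)
      apply ball_subset_ball'
      rw [dist_eq_norm]
      linarith
    have h4 := dev' hP hu x hr
    have h5 : B2 x (2 * r) u ≤ B2 x (4 * r) u :=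
      B2_mono hu (ball_subset_ball (by linarith))
    have h6 : (R ^ 3)⁻¹ ≤ 8 * (r ^ 3)⁻¹ := by
      rw [← div_eq_mul_inv, le_div_iff₀ (by positivity), inv_mul_le_iff₀ (by positivity)]
      have : r ^ 3 ≤ (2 * R) ^ 3 := pow_le_pow_left₀ hr.le hk2.le 3
      nlinarith
    have hBB := B2_nn x (4 * r) u
    calc Ct * ((R ^ 3)⁻¹ * A2 y R (fun z => u z - mo r u x))
        ≤ Ct * ((8 * (r ^ 3)⁻¹) * (C * r ^ 2 * B2 x (4 * r) u)) := by
          have h7 : A2 y R (fun z => u z - mo r u x) ≤ C * r ^ 2 * B2 x (4 * r) u := by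
            refine h3.trans (h4.trans ?_)
            gcongr
          have h8 : 0 ≤ A2 y R (fun z => u z - mo r u x) :=
            setIntegral_nonneg measurableSet_ball fun _ _ => nsq_nonneg _ _
          gcongr
      _ = 8 * (Ct * C * (r⁻¹ * B2 x (4 * r) u)) := by
          field_simp
      _ ≤ 16 * (Ct * C * B) := by
          have h9 : r⁻¹ * B2 x (4 * r) u ≤ B := by
            rw [hB]
            gcongr
          have h10 : 0 ≤ Ct * C * B := by positivity
          have h11 : Ct * C * (r⁻¹ * B2 x (4 * r) u) ≤ Ct * C * B := by gcongr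
          linarith
  have h3 : |mo R u y i - mo r u x i| ≤ 4 * √(Ct * C * B) := by
    rw [← Real.sqrt_sq_eq_abs]
    refine (Real.sqrt_le_sqrt h2).trans (le_of_eq ?_)
    rw [Real.sqrt_mul (by norm_num)]
    congr 1
    rw [show (16 : ℝ) = 4 ^ 2 by norm_num]
    exact Real.sqrt_sq (by norm_num)
  have h4 : |mo R u y i - mo s u y i| ≤ 4 * √(Ct * C * B) := by
    refine h1.trans ?_
    rw [mul_comm 4]
    exact mul_le_mul_of_nonneg_left hgeo (Real.sqrt_nonneg _)
  have h5 : |mo s u y i - mo r u x i| ≤ |mo R u y i - mo r u x i| + |mo R u y i - mo s u y i| := by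
    have := abs_sub (mo R u y i - mo r u x i) (mo R u y i - mo s u y i)
    have e : mo R u y i - mo r u x i - (mo R u y i - mo s u y i) = mo s u y i - mo r u x i := by
      ring
    rwa [e] at this
  rw [Real.sqrt_mul (by positivity)] at h3 h4
  nlinarith

end Pool.Agent.Y496.NS
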