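import Pool.Agent.Y6.Stm3

/-!
Weighted form of the trilinear estimate for two-dimensional sets (job B0 of helper6).
-/

open MeasureTheory Set
open scoped ENNReal

set_option autoImplicit false

namespace Pool.Agent.Y496.NS.B0

open Pool.Agent.Y6
open H459R3.NS (e2 enn_cs enn_half_sq thin_full)

/-- the weight of the block `i` -/
noncomputable def w (i : ℕ) : ℝ≥0∞ := ENNReal.ofReal (Real.sqrt (2 ^ i))

open Classical in
/-- the block `i` of `α` -/
noncomputable def al (h : K → ℕ) (α : K → ℝ≥0∞) (i : ℕ) (q : K) : ℝ≥0∞ :=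
  if Nat.clog 2 (h q) = i then α q else 0

lemma geo (M : ℕ) (hM : 1 ≤ M) :
    ∑ i ∈ Finset.range (Nat.clog 2 M + 1), Real.sqrt (2 ^ i) ≤ 5 * Real.sqrt M := by
  set s : ℝ := Real.sqrt 2 with hs
  have hs2 : s ^ 2 = 2 := Real.sq_sqrt (by norm_num)
  have hs1 : 1.414 < s := by
    rw [hs]; apply Real.lt_sqrt_of_sq_lt; norm_num
  have hs3 : s < 1.415 := by
    rw [hs, Real.sqrt_lt' (by norm_num)]; norm_num
  have e : ∀ i : ℕ, Real.sqrt (2 ^ i) = s ^ i := by
    intro i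
    rw [hs, Real.sqrt_eq_iff_mul_self_eq (by positivity) (by positivity), ← mul_pow,
      Real.mul_self_sqrt (by norm_num)]
  rw [Finset.sum_congr rfl fun i _ => e i, geom_sum_eq (by linarith : s ≠ 1)]
  set I := Nat.clog 2 M with hI
  have h2 : (2:ℝ) ^ I ≤ 2 * M := by
    have : 2 ^ I ≤ 2 * M := by
      rcases Nat.eq_zero_or_pos I with h0 | h0
      · rw [h0]; omega
      · have h1 : 1 < M := by
          by_contra hc
          have : M = 1 := by omega
          rw [hI, this] at h0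
          simp at h0
        have h3 := Nat.pow_pred_clog_lt_self (b := 2) (by norm_num) h1
        have h4 : 2 ^ I = 2 * 2 ^ (I - 1) := by
          rw [← pow_succ']; congr 1; omega
        rw [h4]
        have : 2 ^ (I - 1) < M := h3
        omega
    exact_mod_cast this
  have h3 : s ^ I ≤ s * Real.sqrt M := by
    rw [← e, hs, ← Real.sqrt_mul (by norm_num)]
    exact Real.sqrt_le_sqrt h2
  have hM0 : 0 ≤ Real.sqrt M := Real.sqrt_nonneg _
  rw [div_le_iff₀ (by linarith)]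
  rw [pow_succ]
  nlinarith [mul_nonneg (by linarith : (0:ℝ) ≤ s) hM0, mul_le_mul_of_nonneg_right h3 (by linarith : 0 ≤ s)]

lemma sum_w (M : ℕ) (hM : 1 ≤ M) :
    ∑ i ∈ Finset.range (Nat.clog 2 M + 1), w i ≤ ENNReal.ofReal (5 * Real.sqrt M) := by
  unfold w
  rw [← ENNReal.ofReal_sum_of_nonneg fun i _ => Real.sqrt_nonneg _]
  exact ENNReal.ofReal_le_ofReal (geo M hM)

lemma w_clog (n : ℕ) : w (Nat.clog 2 n) ≤
    ENNReal.ofReal (Real.sqrt 2) * ENNReal.ofReal (Real.sqrt (max n 1 : ℕ)) := by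
  unfold w
  rw [← ENNReal.ofReal_mul (Real.sqrt_nonneg _), ← Real.sqrt_mul (by norm_num)]
  refine ENNReal.ofReal_le_ofReal (Real.sqrt_le_sqrt ?_)
  have : 2 ^ Nat.clog 2 n ≤ 2 * max n 1 := by
    rcases Nat.eq_zero_or_pos (Nat.clog 2 n) with h0 | h0
    · rw [h0]; omega
    · have h1 : 1 < n := by
        by_contra hc
        have : n ≤ 1 := by omega
        rw [Nat.clog_of_right_le_one this] at h0
        exact lt_irrefl _ h0
      have h3 := Nat.pow_pred_clog_lt_self (b := 2) (by norm_num) h1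
      have h4 : 2 ^ Nat.clog 2 n = 2 * 2 ^ (Nat.clog 2 n - 1) := by
        rw [← pow_succ']; congr 1; omega
      rw [h4]
      have : 2 ^ (Nat.clog 2 n - 1) < n := h3
      omega
  exact_mod_cast this

lemma al_sum (h : K → ℕ) (α : K → ℝ≥0∞) (M : ℕ) (hα : ∀ k, M < h k → α k = 0) (q : K) :
    α q = ∑ i ∈ Finset.range (Nat.clog 2 M + 1), al h α i q := by
  unfold al
  rw [Finset.sum_ite_eq]
  split_ifs with h1
  · rfl
  · apply hα
    by_contra hc
    push Not at hc
    apply h1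
    rw [Finset.mem_range]
    exact Nat.lt_succ_of_le (Nat.clog_mono_right 2 hc)

lemma sum_sq (h : K → ℕ) (α : K → ℝ≥0∞) (I : ℕ) :
    ∑ i ∈ Finset.range I, w i * ∑' q, al h α i q ^ 2 ≤
      ENNReal.ofReal (Real.sqrt 2) *
        ∑' q, ENNReal.ofReal (Real.sqrt (max (h q) 1 : ℕ)) * α q ^ 2 := by
  have e : ∀ i ∈ Finset.range I, w i * ∑' q, al h α i q ^ 2 = ∑' q, w i * al h α i q ^ 2 :=
    fun i _ => ENNReal.tsum_mul_left.symm
  rw [Finset.sum_congr rfl e, ← (Summable.tsum_finsetSum fun i _ => ENNReal.summable),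
    ← ENNReal.tsum_mul_left]
  refine ENNReal.tsum_le_tsum fun q => ?_
  have h1 : ∑ i ∈ Finset.range I, w i * al h α i q ^ 2 ≤ w (Nat.clog 2 (h q)) * α q ^ 2 := by
    have h2 : ∀ i ∈ Finset.range I, w i * al h α i q ^ 2 =
        if Nat.clog 2 (h q) = i then w (Nat.clog 2 (h q)) * α q ^ 2 else 0 := by
      intro i _
      unfold al
      split_ifs with hi
      · rw [hi]
      · simp
    rw [Finset.sum_congr rfl h2, Finset.sum_ite_eq]
    split_ifs
    · exact le_rfl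
    · exact bot_le
  refine h1.trans ?_
  rw [← mul_assoc]
  gcongr
  exact w_clog _

lemma block {h : K → ℕ} {H A : ℝ} (hh : Height h H A) (hA : 0 ≤ A) (α β γ : K → ℝ≥0∞)
    (hβ : β 0 = 0) (hγ : γ 0 = 0) (i : ℕ) :
    ∑' q : K, ∑' k : K, al h α i q * β k * γ (-q - k) ≤
      (ENNReal.ofReal (Real.sqrt (2 * A)) * w i) *
        (e2 (al h α i) * e2 β * e2 (fun l => H459R3.NS.N l * γ l)
        + e2 (al h α i) * e2 γ * e2 (fun l => H459R3.NS.N l * β l)) := by
  have hd := hh.thin (2 ^ i) Nat.one_le_two_pow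
  have h1 := thin_full hd (al h α i) β γ hβ hγ
  have e1 : ENNReal.ofReal (2 * (A * ((2 ^ i : ℕ) : ℝ))) ^ (1 / 2 : ℝ) =
      ENNReal.ofReal (Real.sqrt (2 * A)) * w i := by
    unfold w
    rw [ENNReal.ofReal_rpow_of_nonneg (by positivity) (by norm_num), ← Real.sqrt_eq_rpow,
      ← ENNReal.ofReal_mul (Real.sqrt_nonneg _), ← Real.sqrt_mul (by positivity)]
    congr 2
    push_cast
    ring
  rw [e1] at h1
  refine le_trans (le_of_eq ?_) h1
  refine tsum_congr fun q => tsum_congr fun k => ?_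
  split_ifs with hq
  · rfl
  · have : al h α i q = 0 := by
      unfold al
      rw [if_neg]
      intro hi
      apply hq
      show h q ≤ 2 ^ i
      rw [← hi]
      exact Nat.le_pow_clog (by norm_num) _
    rw [this]; simp

lemma fin_cs (I : ℕ) (f g : ℕ → ℝ≥0∞) :
    ∑ i ∈ Finset.range I, f i * g i ≤
      (∑ i ∈ Finset.range I, f i ^ 2) ^ (1 / 2 : ℝ) *
        (∑ i ∈ Finset.range I, g i ^ 2) ^ (1 / 2 : ℝ) := by
  have h := enn_cs (fun i : Fin I => f i) (fun i : Fin I => g i)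
  rw [tsum_fintype, tsum_fintype, tsum_fintype] at h
  rw [← Fin.sum_univ_eq_sum_range (fun i => f i * g i), ← Fin.sum_univ_eq_sum_range
    (fun i => f i ^ 2), ← Fin.sum_univ_eq_sum_range (fun i => g i ^ 2)]
  exact h

theorem t_B0 : St_B0 := by
  refine ⟨4, by norm_num, fun h H A hA hh M hM α β γ hα hβ hγ => ?_⟩
  set I := Nat.clog 2 M + 1 with hI
  set S : ℝ≥0∞ := e2 β * e2 (fun l => H459R3.NS.N l * γ l) +
    e2 γ * e2 (fun l => H459R3.NS.N l * β l) with hS
  set T : ℝ≥0∞ := ∑' q, ENNReal.ofReal (Real.sqrt (max (h q) 1 : ℕ)) * α q ^ 2 with hT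
  -- decomposition
  have h1 : ∑' q : K, ∑' k : K, α q * β k * γ (-q - k) =
      ∑ i ∈ Finset.range I, ∑' q : K, ∑' k : K, al h α i q * β k * γ (-q - k) := by
    rw [← (Summable.tsum_finsetSum fun i _ => ENNReal.summable)]
    refine tsum_congr fun q => ?_
    rw [← (Summable.tsum_finsetSum fun i _ => ENNReal.summable)]
    refine tsum_congr fun k => ?_
    rw [← Finset.sum_mul, ← Finset.sum_mul, ← al_sum h α M hα q]
  have h2 : ∑ i ∈ Finset.range I, ∑' q : K, ∑' k : K, al h α i q * β k * γ (-q - k) ≤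
      ∑ i ∈ Finset.range I, (ENNReal.ofReal (Real.sqrt (2 * A)) * S) * (w i * e2 (al h α i)) := by
    refine Finset.sum_le_sum fun i _ => (block hh hA α β γ hβ hγ i).trans (le_of_eq ?_)
    rw [hS]; ring
  have h3 : ∑ i ∈ Finset.range I, w i * e2 (al h α i) ≤
      (ENNReal.ofReal (5 * Real.sqrt M)) ^ (1 / 2 : ℝ) *
        (ENNReal.ofReal (Real.sqrt 2) * T) ^ (1 / 2 : ℝ) := by
    have e : ∀ i ∈ Finset.range I, w i * e2 (al h α i) =
        (w i) ^ (1 / 2 : ℝ) * ((w i) ^ (1 / 2 : ℝ) * e2 (al h α i)) := by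
      intro i _
      rw [← mul_assoc, ← sq, enn_half_sq]
    rw [Finset.sum_congr rfl e]
    refine (fin_cs I _ _).trans ?_
    have e1 : ∑ i ∈ Finset.range I, ((w i) ^ (1 / 2 : ℝ)) ^ 2 ≤ ENNReal.ofReal (5 * Real.sqrt M) := by
      simp_rw [enn_half_sq]
      exact sum_w M hM
    have e2' : ∑ i ∈ Finset.range I, ((w i) ^ (1 / 2 : ℝ) * e2 (al h α i)) ^ 2 ≤
        ENNReal.ofReal (Real.sqrt 2) * T := by
      have : ∀ i ∈ Finset.range I, ((w i) ^ (1 / 2 : ℝ) * e2 (al h α i)) ^ 2 =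
          w i * ∑' q, al h α i q ^ 2 := by
        intro i _
        rw [mul_pow, enn_half_sq]
        unfold e2
        rw [enn_half_sq]
      rw [Finset.sum_congr rfl this]
      exact sum_sq h α I
    gcongr
  have h4 : (ENNReal.ofReal (5 * Real.sqrt M)) ^ (1 / 2 : ℝ) *
        (ENNReal.ofReal (Real.sqrt 2) * T) ^ (1 / 2 : ℝ) =
      ENNReal.ofReal (Real.sqrt (5 * Real.sqrt 2)) *
        (ENNReal.ofReal (Real.sqrt M) * T) ^ (1 / 2 : ℝ) := by
    rw [Real.sqrt_eq_rpow (5 * Real.sqrt 2),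
      ← ENNReal.ofReal_rpow_of_nonneg (by positivity) (by norm_num),
      ← ENNReal.mul_rpow_of_nonneg _ _ (by norm_num),
      ← ENNReal.mul_rpow_of_nonneg _ _ (by norm_num), ENNReal.ofReal_mul (by norm_num),
      ENNReal.ofReal_mul (by norm_num)]
    congr 1
    ring
  have h5 : ENNReal.ofReal (Real.sqrt (2 * A)) * ENNReal.ofReal (Real.sqrt (5 * Real.sqrt 2)) ≤
      ENNReal.ofReal (4 * Real.sqrt A) := by
    rw [← ENNReal.ofReal_mul (Real.sqrt_nonneg _)]
    refine ENNReal.ofReal_le_ofReal ?_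
    have hs : Real.sqrt 2 ≤ 1.5 := by
      rw [Real.sqrt_le_left (by norm_num)]; norm_num
    have e : (4:ℝ) * Real.sqrt A = Real.sqrt (16 * A) := by
      rw [Real.sqrt_mul (by norm_num), show (16:ℝ) = 4 ^ 2 by norm_num,
        Real.sqrt_sq (by norm_num)]
    rw [e, ← Real.sqrt_mul (by positivity)]
    apply Real.sqrt_le_sqrt
    nlinarith
  calc ∑' q : K, ∑' k : K, α q * β k * γ (-q - k)
      = ∑ i ∈ Finset.range I, ∑' q : K, ∑' k : K, al h α i q * β k * γ (-q - k) := h1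
    _ ≤ _ := h2
    _ = (ENNReal.ofReal (Real.sqrt (2 * A)) * S) *
        ∑ i ∈ Finset.range I, w i * e2 (al h α i) := by rw [Finset.mul_sum]
    _ ≤ (ENNReal.ofReal (Real.sqrt (2 * A)) * S) *
        (ENNReal.ofReal (Real.sqrt (5 * Real.sqrt 2)) *
        (ENNReal.ofReal (Real.sqrt M) * T) ^ (1 / 2 : ℝ)) := by
          rw [← h4]; gcongr
    _ = (ENNReal.ofReal (Real.sqrt (2 * A)) * ENNReal.ofReal (Real.sqrt (5 * Real.sqrt 2))) *
        (ENNReal.ofReal (Real.sqrt M) * T) ^ (1 / 2 : ℝ) * S := by ring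
    _ ≤ _ := by gcongr

end Pool.Agent.Y496.NS.B0
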