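import Pool.Agent.Y8.Mov

/-!
The local energy inequality for moving test functions, the path being defined on a part of the
time interval (adapted from Pool.Agent.Y8.Mov2).
-/

open MeasureTheory Set Metric Filter Topology
open scoped ContDiff NNReal

namespace Pool.Agent.Y496.NS.WFR2

open H459R3.NS W221.NS Pool.Agent.Y8

theorem lei_mov2 (hT : S_TCUT) {T E D : ℝ} {G : Set ℝ} {u : ℝ → V → V} {p : ℝ → V → ℝ}
    (h : Turb 1 T E D G u p) {α β : ℝ} {Ψ : ℝ → V → ℝ}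
    (hΨ : ContDiffOn ℝ ∞ (fun z : ℝ × V => Ψ z.1 z.2) (Ioo α β ×ˢ univ)) {R : ℝ}
    (hR : 0 < R) (hs : ∀ t ∈ Ioo α β, ∀ z ∉ ball (0 : V) R, Ψ t z = 0) {X Y : ℝ → V} {s t : ℝ} (hsG : s ∈ G) (htG : t ∈ G) (hαs : α < s)
    (hst : s ≤ t) (htβ : t < β)
    (hX : ∀ τ ∈ Icc s t, HasDerivAt X (Y τ) τ) (hY : ContinuousOn Y (Icc s t)) (pos : ∀ τ ∈ Icc s t, ∀ z, 0 ≤ Ψ τ z) :
    IntegrableOn (fun τ => ∫ x, edx u p Ψ τ (X τ) (Y τ) x) (Ioo s t) ∧
      (∫ x, nsq (u t) x * mv Ψ X t x) - (∫ x, nsq (u s) x * mv Ψ X s x)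
        ≤ ∫ τ in Ioo s t, ∫ x, edx u p Ψ τ (X τ) (Y τ) x := by
  have hsT := h.subG hsG
  have htT := h.subG htG
  have hIT : Icc s t ⊆ Ioo 0 T := fun τ hτ => ⟨hsT.1.trans_le hτ.1, hτ.2.trans_lt htT.2⟩
  have hIab : Icc s t ⊆ Ioo α β := fun τ hτ => ⟨hαs.trans_le hτ.1, hτ.2.trans_lt htβ⟩
  obtain ⟨B, hB⟩ := isCompact_Icc.exists_bound_of_continuousOn hY
  have hB0 : 0 ≤ B := (norm_nonneg _).trans (hB s ⟨le_rfl, hst⟩)
  obtain ⟨M, hM0, hM⟩ := tbd hΨ hR hs hαs htβ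
  obtain ⟨C', hC', hm⟩ := maj E (R + 1)
  set C1 : ℝ := (8 + 3 * (B + 1)) * M with hC1
  have hC10 : 0 ≤ C1 := by positivity
  -- approximating paths
  have hZ : ∀ n : ℕ, ∃ Z Z' : ℝ → V, ContDiff ℝ ∞ Z ∧ (∀ τ, HasDerivAt Z (Z' τ) τ) ∧
      ∀ τ ∈ Icc s t, ‖Z τ - X τ‖ ≤ 1 / ((n : ℝ) + 1) ∧ ‖Z' τ - Y τ‖ ≤ 1 / ((n : ℝ) + 1) := fun n =>
    path_approx hst (fun τ hτ => hX τ hτ) hY (by positivity)
  choose Z Z' hZs hZd hZc using hZ
  have h1n : ∀ n : ℕ, 1 / ((n : ℝ) + 1) ≤ 1 := fun n => by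
    rw [div_le_one (by positivity)]
    have : (0 : ℝ) ≤ n := Nat.cast_nonneg n
    linarith
  have hZX : ∀ τ ∈ Icc s t, Tendsto (fun n => Z n τ) atTop (𝓝 (X τ)) := fun τ hτ => by
    rw [tendsto_iff_norm_sub_tendsto_zero]
    exact squeeze_zero (fun n => norm_nonneg _) (fun n => (hZc n τ hτ).1)
      tendsto_one_div_add_atTop_nhds_zero_nat
  have hZY : ∀ τ ∈ Icc s t, Tendsto (fun n => Z' n τ) atTop (𝓝 (Y τ)) := fun τ hτ => by
    rw [tendsto_iff_norm_sub_tendsto_zero]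
    exact squeeze_zero (fun n => norm_nonneg _) (fun n => (hZc n τ hτ).2)
      tendsto_one_div_add_atTop_nhds_zero_nat
  have hball : ∀ n, ∀ τ ∈ Icc s t, ball (Z n τ) R ⊆ ball (X τ) (R + 1) := by
    intro n τ hτ x hx
    rw [mem_ball] at hx ⊢
    have h2 := (hZc n τ hτ).1.trans (h1n n)
    have h3 := dist_triangle x (Z n τ) (X τ)
    rw [← dist_eq_norm] at h2
    linarith
  have hZ'B : ∀ n, ∀ τ ∈ Icc s t, ‖Z' n τ‖ ≤ B + 1 := by
    intro n τ hτ
    have h2 := (hZc n τ hτ).2.trans (h1n n)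
    have h3 := hB τ hτ
    have h4 := norm_sub_norm_le (Z' n τ) (Y τ)
    linarith
  -- the inequality for the approximations
  have hΦ : ∀ n, ContDiffOn ℝ ∞ (fun z : ℝ × V => mv Ψ (Z n) z.1 z.2) (Ioo α β ×ˢ univ) := by
    intro n
    have h2 : ContDiff ℝ ∞ (fun z : ℝ × V => ((z.1, z.2 - Z n z.1) : ℝ × V)) :=
      contDiff_fst.prodMk (contDiff_snd.sub ((hZs n).comp contDiff_fst))
    exact hΨ.comp h2.contDiffOn fun z hz => ⟨hz.1, mem_univ _⟩
  have hRn : ∀ n, ∃ ρ : ℝ, 0 < ρ ∧ ∀ τ ∈ Ioo α β, ∀ z ∉ ball (0 : V) ρ, mv Ψ (Z n) τ z = 0 := by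
    intro n
    obtain ⟨m, hm⟩ := (isCompact_Icc (a := α) (b := β)).exists_bound_of_continuousOn
      (hZs n).continuous.continuousOn
    refine ⟨|m| + R, by positivity, fun τ hτ z hz => hs τ hτ _ fun h' => hz ?_⟩
    rw [mem_ball, dist_zero_right] at h' ⊢
    have h3 := hm τ (Ioo_subset_Icc_self hτ)
    have h4 := norm_sub_norm_le z (Z n τ)
    have h5 := le_abs_self m
    linarith
  choose ρ hρ0 hρ using hRn
  have hlei : ∀ n, IntegrableOn (DD 1 u p (mv Ψ (Z n))) (Ioo s t) ∧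
      (∫ z, nsq (u t) z * mv Ψ (Z n) t z) - (∫ z, nsq (u s) z * mv Ψ (Z n) s z) ≤
        ∫ τ in Ioo s t, DD 1 u p (mv Ψ (Z n)) τ := fun n =>
    lei hT h (hΦ n) (hρ0 n) (hρ n) hsG htG hαs hst htβ fun τ hτ z => pos τ hτ _
  have hae : ∀ᵐ τ ∂(volume.restrict (Ioo s t)), τ ∈ G ∧ τ ∈ Ioo s t := by
    filter_upwards [aeT h hsT.1.le htT.2.le, ae_restrict_mem measurableSet_Ioo] with τ h1 h2
    exact ⟨h1, h2⟩
  -- the density
  have hDn : ∀ n, ∀ τ ∈ G, τ ∈ Ioo s t →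
      DD 1 u p (mv Ψ (Z n)) τ = ∫ x, edx u p Ψ τ (Z n τ) (Z' n τ) x := by
    intro n τ hτG hτ
    have hτ' := Ioo_subset_Icc_self hτ
    have hJ : IsOpen (G ∩ Ioo α β) := h.openG.inter isOpen_Ioo
    have e1 := DD_eq (u := u) (p := p) 1 hJ (h.smooth_u.mono (prod_mono inter_subset_left subset_rfl))
      (h.smooth_p.mono (prod_mono inter_subset_left subset_rfl))
      ((hΦ n).mono (prod_mono inter_subset_right subset_rfl)) (hρ0 n)
      (fun t ht => hρ n t ht.2) (t := τ) ⟨hτG, hIab hτ'⟩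
    rw [e1]
    congr 1
    funext x
    exact ed_mv hΨ (hIab hτ') (hZd n τ) x
  have hbdx : ∀ τ ∈ Icc s t, ∀ a y x : V, ‖y‖ ≤ B + 1 →
      |edx u p Ψ τ a y x| ≤ C1 * MM (u τ) (p τ) x := by
    intro τ hτ a y x hy
    obtain ⟨m0, m1, m2, m3⟩ := hM τ hτ (x - a)
    exact edx_abs hM0 (by linarith) hy m0 m1 m2 m3
  have hMint : ∀ τ ∈ G, Integrable ((ball (X τ) (R + 1)).indicator
      (fun x => C1 * MM (u τ) (p τ) x)) := fun τ hτ =>
    (integrable_indicator_iff measurableSet_ball).2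
      (ballint (continuous_const.mul (MM_cont (h.spv hτ).1 (h.sp hτ).smooth.continuous)) _ _)
  have hind : ∀ n, ∀ τ ∈ Icc s t, ∀ x, ‖edx u p Ψ τ (Z n τ) (Z' n τ) x‖ ≤
      (ball (X τ) (R + 1)).indicator (fun x => C1 * MM (u τ) (p τ) x) x := by
    intro n τ hτ x
    by_cases hx : x ∈ ball (X τ) (R + 1)
    · rw [indicator_of_mem hx, Real.norm_eq_abs]
      exact hbdx τ hτ (Z n τ) (Z' n τ) x (hZ'B n τ hτ)
    · rw [indicator_of_notMem hx, edx_zero (hIab hτ) hR hΨ hs fun h' => hx (hball n τ hτ h'),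
        norm_zero]
  have hlim : ∀ τ ∈ G, τ ∈ Icc s t → Tendsto (fun n => ∫ x, edx u p Ψ τ (Z n τ) (Z' n τ) x) atTop
      (𝓝 (∫ x, edx u p Ψ τ (X τ) (Y τ) x)) := by
    intro τ hτG hτ
    refine tendsto_integral_of_dominated_convergence _ (fun n => ?_) (hMint τ hτG)
      (fun n => ae_of_all _ (hind n τ hτ)) (ae_of_all _ fun x => ?_)
    · exact (edx_contx (hIab hτ) hΨ (h.spv hτG).1 (h.sp hτG).smooth).aestronglyMeasurable
    · have hp2 : Tendsto (fun n => ((Z n τ, Z' n τ) : V × V)) atTop (𝓝 (X τ, Y τ)) :=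
        (hZX τ hτ).prodMk_nhds (hZY τ hτ)
      have hc2 : Continuous fun z : V × V => edx u p Ψ τ z.1 z.2 x := edx_cont (hIab hτ) hΨ
      have hc3 := (hc2.tendsto (X τ, Y τ)).comp hp2
      simp only [Function.comp_def] at hc3
      exact hc3
  have hkb : Integrable (fun τ => C1 * (C' * K1 G u p τ)) :=
    ((K1_int h).const_mul C').const_mul C1
  have hbt : ∀ n, ∀ᵐ τ ∂(volume.restrict (Ioo s t)), ‖DD 1 u p (mv Ψ (Z n)) τ‖ ≤
      C1 * (C' * K1 G u p τ) := by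
    intro n
    filter_upwards [hae] with τ hτ
    have hτ' := Ioo_subset_Icc_self hτ.2
    rw [hDn n τ hτ.1 hτ.2, K1_in hτ.1]
    calc ‖∫ x, edx u p Ψ τ (Z n τ) (Z' n τ) x‖ ≤
          ∫ x, (ball (X τ) (R + 1)).indicator (fun x => C1 * MM (u τ) (p τ) x) x :=
          norm_integral_le_of_norm_le (hMint τ hτ.1) (ae_of_all _ (hind n τ hτ'))
      _ = C1 * ∫ x in ball (X τ) (R + 1), MM (u τ) (p τ) x := by
          rw [integral_indicator measurableSet_ball, integral_const_mul]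
      _ ≤ _ := mul_le_mul_of_nonneg_left (hm (u τ) (p τ) (h.spv hτ.1) (h.sp hτ.1)
          (h.energy_le τ hτ.1) (X τ)) hC10
  have hlimt : ∀ᵐ τ ∂(volume.restrict (Ioo s t)), Tendsto (fun n => DD 1 u p (mv Ψ (Z n)) τ) atTop
      (𝓝 (∫ x, edx u p Ψ τ (X τ) (Y τ) x)) := by
    filter_upwards [hae] with τ hτ
    simp only [hDn _ τ hτ.1 hτ.2]
    exact hlim τ hτ.1 (Ioo_subset_Icc_self hτ.2)
  have hmeas : ∀ n, AEStronglyMeasurable (DD 1 u p (mv Ψ (Z n))) (volume.restrict (Ioo s t)) :=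
    fun n => (hlei n).1.aestronglyMeasurable
  have hT1 := tendsto_integral_of_dominated_convergence _ hmeas hkb.integrableOn hbt hlimt
  refine ⟨?_, ?_⟩
  · refine Integrable.mono' hkb.integrableOn (aestronglyMeasurable_of_tendsto_ae atTop hmeas hlimt) ?_
    have hall : ∀ᵐ τ ∂(volume.restrict (Ioo s t)), ∀ n, ‖DD 1 u p (mv Ψ (Z n)) τ‖ ≤
      C1 * (C' * K1 G u p τ) := ae_all_iff.2 hbt
    filter_upwards [hall, hlimt] with τ h1 h2
    exact le_of_tendsto h2.norm (Eventually.of_forall h1)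
  · have hends : ∀ σ ∈ G, σ ∈ Icc s t → Tendsto (fun n => ∫ z, nsq (u σ) z * mv Ψ (Z n) σ z) atTop
        (𝓝 (∫ z, nsq (u σ) z * mv Ψ X σ z)) := by
      intro σ hσG hσ
      have hc := (nsq_sm (h.spv hσG).1).continuous
      have hΨc : Continuous (Ψ σ) := (sl_sm hΨ (hIab hσ)).continuous
      refine tendsto_integral_of_dominated_convergence
        ((ball (X σ) (R + 1)).indicator (fun x => nsq (u σ) x * M)) (fun n => ?_) ?_
        (fun n => ae_of_all _ fun x => ?_) (ae_of_all _ fun x => ?_)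
      · exact (hc.mul (hΨc.comp (by fun_prop : Continuous fun x => x - Z n σ))).aestronglyMeasurable
      · exact (integrable_indicator_iff measurableSet_ball).2
          (ballint (hc.mul continuous_const) _ _)
      · by_cases hx : x ∈ ball (X σ) (R + 1)
        · rw [indicator_of_mem hx, norm_mul, Real.norm_eq_abs, Real.norm_eq_abs,
            abs_of_nonneg (nsq_nn _ _)]
          exact mul_le_mul_of_nonneg_left (hM σ hσ _).1 (nsq_nn _ _)
        · have hz : mv Ψ (Z n) σ x = 0 := by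
            refine hs σ (hIab hσ) _ fun h' => hx (hball n σ hσ ?_)
            rw [mem_ball, dist_eq_norm]
            rwa [mem_ball, dist_zero_right] at h'
          rw [indicator_of_notMem hx, hz, mul_zero, norm_zero]
      · refine Tendsto.const_mul _ ?_
        exact (hΨc.tendsto (x - X σ)).comp (tendsto_const_nhds.sub (hZX σ hσ))
    exact le_of_tendsto_of_tendsto ((hends t htG ⟨hst, le_rfl⟩).sub (hends s hsG ⟨le_rfl, hst⟩))
      hT1 (Eventually.of_forall fun n => (hlei n).2)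

end Pool.Agent.Y496.NS.WFR2
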