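import Pool.Agent.Y8.WFrame
import Pool.Agent.Y8.Stm6
import Pool.Agent.Y496.NS.Mov3
import Pool.Agent.Y496.NS.Cross3

/-!
The moving frame of a weak solution satisfies `WL2` (job S_WFR2 of helper8).
-/

open MeasureTheory Set Metric Filter Topology
open scoped ContDiff NNReal

namespace Pool.Agent.Y496.NS.WFR2

open H459R3.NS W221.NS Pool.Agent.Y8

theorem am_le {c : ℝ} (hc : 0 < c) (s : ℝ) {a b : ℝ} (h : a ≤ b) : s + c * a ≤ s + c * b :=
  add_le_add le_rfl (mul_le_mul_of_nonneg_left h hc.le)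

theorem am_lt {c : ℝ} (hc : 0 < c) (s : ℝ) {a b : ℝ} (h : a < b) : s + c * a < s + c * b :=
  add_lt_add_of_le_of_lt le_rfl (mul_lt_mul_of_pos_left h hc)

theorem am_bd {c : ℝ} (hc : 0 < c) (s : ℝ) {t : ℝ} (ht : t ∈ Ioo (-1 : ℝ) 0) :
    s + c * t ∈ Ioo (s - c) s := by
  constructor <;> nlinarith [ht.1, ht.2]

theorem am_lo {c : ℝ} (hc : 0 < c) (s : ℝ) {t : ℝ} (ht : -1 ≤ t) : s - c ≤ s + c * t := by
  nlinarith

theorem am_up {c : ℝ} (hc : 0 < c) (s : ℝ) {t : ℝ} (ht : t ≤ 0) : s + c * t ≤ s := by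
  nlinarith

theorem key_sq {r : ℝ} (a b : ℝ) : (r * (a - b)) ^ 2 ≤ 2 * r ^ 2 * a ^ 2 + 2 * r ^ 2 * b ^ 2 := by
  nlinarith [mul_nonneg (sq_nonneg r) (sq_nonneg (a + b))]

theorem bdd_pt {r B : ℝ} (a b : V) (hb : ∀ i, |b i| ≤ B) :
    ∑ i, (r * (a i - b i)) ^ 2 ≤ 6 * r ^ 2 * B ^ 2 + 2 * r ^ 2 * ∑ i, a i ^ 2 := by
  have h : ∀ i, (r * (a i - b i)) ^ 2 ≤ 2 * r ^ 2 * B ^ 2 + 2 * r ^ 2 * a i ^ 2 := by
    intro i
    have h1 : b i ^ 2 ≤ B ^ 2 := by
      rw [← sq_abs]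
      exact pow_le_pow_left₀ (abs_nonneg _) (hb i) 2
    have h2 := mul_le_mul_of_nonneg_left h1 (by positivity : 0 ≤ 2 * r ^ 2)
    have h3 := key_sq (r := r) (a i) (b i)
    linarith
  have h0 := h 0
  have h1 := h 1
  have h2 := h 2
  simp only [Fin.sum_univ_three]
  linarith

theorem low_ar {c d C1 J : ℝ} (hc : 0 < c) (hd : 0 ≤ d) (h1 : c * d ≤ J) (hC : 1 ≤ C1) :
    d ≤ C1 * (c⁻¹ * J) := by
  have h3 : d ≤ c⁻¹ * J := by
    rw [le_inv_mul_iff₀ hc]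
    exact h1
  nlinarith

theorem lap_ar {M a : ℝ} (l : ℝ) (hM : 0 ≤ M) (ha : 0 ≤ a) (h : |l| ≤ 3 * M) :
    a * a * |l| ≤ M + M * a + 3 * (M * (a * a)) := by
  have h2 := mul_le_mul_of_nonneg_left h (mul_nonneg ha ha)
  nlinarith [mul_nonneg hM ha]

theorem pd_ar {M a : ℝ} (l : ℝ) (hM : 0 ≤ M) (ha : 0 ≤ a) (h : |l| ≤ M) :
    a * |l| ≤ M + M * a + 3 * (M * (a * a)) := by
  have h2 := mul_le_mul_of_nonneg_left h ha
  nlinarith [mul_nonneg hM (mul_nonneg ha ha)]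

theorem fin_ar {r a b c d e f : ℝ} (h1 : r * b = d + e) (h2 : r * a = c + f) {g : ℝ}
    (h3 : d - c ≤ g) : r * (b - a) ≤ (e - f) + g := by
  nlinarith

/-- Change of variables in time. -/
theorem chv {c : ℝ} (hc : 0 < c) (s a b : ℝ) (f : ℝ → ℝ) :
    ∫ t in Ioo a b, f (s + c * t) = c⁻¹ * ∫ τ in Ioo (s + c * a) (s + c * b), f τ := by
  have hpre : ∀ t, t ∈ Ioo a b ↔ s + c * t ∈ Ioo (s + c * a) (s + c * b) := by
    intro t
    simp only [mem_Ioo]
    constructor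
    · rintro ⟨h1, h2⟩
      constructor <;> nlinarith
    · rintro ⟨h1, h2⟩
      constructor <;> nlinarith
  have hcomp : ∀ t, (Ioo (s + c * a) (s + c * b)).indicator f (s + c * t) =
      (Ioo a b).indicator (fun t => f (s + c * t)) t := by
    intro t
    by_cases ht : t ∈ Ioo a b
    · rw [indicator_of_mem ht, indicator_of_mem ((hpre t).1 ht)]
    · rw [indicator_of_notMem ht, indicator_of_notMem fun h => ht ((hpre t).2 h)]
  rw [← integral_indicator measurableSet_Ioo, ← integral_indicator measurableSet_Ioo]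
  have h1 := Measure.integral_comp_mul_left (fun τ => (Ioo (s + c * a) (s + c * b)).indicator
    f (s + τ)) c
  rw [integral_add_left_eq_self (fun τ => (Ioo (s + c * a) (s + c * b)).indicator
    f τ) s, abs_of_pos (by positivity), smul_eq_mul] at h1
  rw [← h1]
  congr 1
  funext t
  exact (hcomp t).symm

theorem pd_sc {f : V → ℝ} (c : ℝ) (j : Fin 3) :
    pd j (fun x => f (c • x)) = fun x => c * pd j f (c • x) := by
  funext x
  unfold pd
  rw [fderiv_comp_smul]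
  rfl

theorem pd_cmul {f : V → ℝ} (hf : ContDiff ℝ ∞ f) (c : ℝ) (j : Fin 3) (x : V) :
    pd j (fun x => c * f x) x = c * pd j f x := by
  unfold pd
  have h : DifferentiableAt ℝ f x := (hf.differentiable (by simp)) x
  rw [fderiv_const_mul h]
  rfl

theorem lap_sc {f : V → ℝ} (hf : ContDiff ℝ ∞ f) (c : ℝ) (x : V) :
    lap (fun x => f (c • x)) x = c * (c * lap f (c • x)) := by
  unfold lap
  rw [Finset.mul_sum, Finset.mul_sum]
  refine Finset.sum_congr rfl fun j _ => ?_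
  rw [pd_sc c j]
  have h1 : ContDiff ℝ ∞ (fun x => pd j f (c • x)) := by
    have h2 : ContDiff ℝ ∞ (pd j f) := by
      have := sl_sm (F := fun (_ : ℝ) x => pd j f x) (H := univ) (t := 0)
        (pd_joint (F := fun (_ : ℝ) x => f x) isOpen_univ (hf.comp contDiff_snd).contDiffOn j)
        (mem_univ _)
      exact this
    exact h2.comp (contDiff_const_smul c)
  rw [pd_cmul h1, pd_sc (f := pd j f) c j]

theorem t_WFR2 (hT : S_TCUT) (hA : S_ACX) (hW : S_WFO) : S_WFR2 := by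
  intro T E D G u p h r s hr hrs hsT X Y B C hP
  have hr2 : 0 < r ^ 2 := by positivity
  set H : Set ℝ := {t | t ∈ Ioo (-1 : ℝ) 0 ∧ s + r ^ 2 * t ∈ G} with hH
  have hmap1 : ∀ t ∈ Ioo (-1 : ℝ) 0, s + r ^ 2 * t ∈ Ioo (s - r ^ 2) s := fun t ht =>
    am_bd hr2 s ht
  have hmap : ∀ t ∈ Ioo (-1 : ℝ) 0, s + r ^ 2 * t ∈ Ioo 0 T := by
    intro t ht
    have h1 := hmap1 t ht
    exact ⟨by linarith [h1.1], by linarith [h1.2]⟩
  have hmap2 : ∀ t ∈ Ioo (-1 : ℝ) 0, s + r ^ 2 * t ∈ Icc (s - r ^ 2) s := fun t ht =>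
    Ioo_subset_Icc_self (hmap1 t ht)
  have hcont : Continuous fun t : ℝ => s + r ^ 2 * t := by fun_prop
  have hHo : IsOpen H := isOpen_Ioo.inter (h.openG.preimage hcont)
  have hHG : ∀ t ∈ H, s + r ^ 2 * t ∈ G := fun t ht => ht.2
  have hXd : ∀ t ∈ G, HasDerivAt X (mo r (u t) (X t)) t := fun t ht => hP.evD h ht
  obtain ⟨hv, hq, hdiv, hmom⟩ := hW T E D G u p h r s hr X hP.sm hXd H hHG
  have hYder : ∀ τ ∈ G, ∀ i, deriv (fun τ => X τ i) τ = Y τ i := by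
    intro τ hτ i
    have h1 := hP.hd τ (h.subG hτ)
    exact ((hasDerivAt_pi.1 h1) i).deriv
  have hvz : ∀ t ∈ H, ∀ z i, frv r s X u t z i =
      r * (u (s + r ^ 2 * t) (X (s + r ^ 2 * t) + r • z) i - Y (s + r ^ 2 * t) i) := by
    intro t ht z i
    unfold frv
    rw [hYder _ ht.2 i]
  have hs0 : 0 < s := hr2.trans hrs
  have hT0 : 0 < T := hs0.trans hsT
  have hB0 : 0 ≤ B := (norm_nonneg _).trans (hP.bd s ⟨hs0, hsT⟩)
  -- the constants for the modulus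
  obtain ⟨K0, hK0, hk0⟩ := cross2 hT T E (8 * r) B hT0 (by positivity) hB0
  set cr1 : ℝ := 1 + r⁻¹ + 3 * (r⁻¹ * r⁻¹) with hcr1
  have hcr1p : 0 ≤ cr1 := by positivity
  set vol8 : ℝ := ∫ _ in ball (0 : V) 8, (1 : ℝ) with hvol8
  have hvol0 : 0 ≤ vol8 := setIntegral_nonneg measurableSet_ball fun _ _ => zero_le_one
  set Cm : ℝ := r * ((r ^ 3)⁻¹ * (K0 * cr1) + |C| * vol8) with hCm
  have hCm0 : 0 ≤ Cm := by positivity
  set C1 : ℝ := 1 + r ^ 2 * Cm with hC1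
  have hC10 : 0 ≤ C1 := by positivity
  have hKint : Integrable fun t => K1 G u p (s + r ^ 2 * t) := by
    have h1 := ((K1_int h).comp_add_left s).comp_mul_left' hr2.ne'
    exact h1
  have hKch : ∀ a b, ∫ t in Ioo a b, C1 * K1 G u p (s + r ^ 2 * t) =
      C1 * ((r ^ 2)⁻¹ * ∫ τ in Ioo (s + r ^ 2 * a) (s + r ^ 2 * b), K1 G u p τ) := by
    intro a b
    rw [integral_const_mul, chv hr2 s a b (K1 G u p)]
  refine ⟨fun t => C1 * K1 G u p (s + r ^ 2 * t), ?_⟩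
  refine ⟨hHo, fun t ht => ht.1, ?_, hv, hq, hdiv, hmom, ?_, ?_, hKint.const_mul C1,
    fun t => mul_nonneg hC10 (K1_nn G u p _), ?_, ?_, ?_⟩
  · -- full measure
    have hsub : Ioo (-1 : ℝ) 0 \ H ⊆ (fun t : ℝ => s + r ^ 2 * t) ⁻¹' (Ioo 0 T \ G) := by
      intro t ht
      refine ⟨hmap t ht.1, fun hG => ht.2 ⟨ht.1, hG⟩⟩
    refine measure_mono_null hsub ?_
    have h1 : (fun t : ℝ => s + r ^ 2 * t) ⁻¹' (Ioo 0 T \ G) =
        (fun t : ℝ => r ^ 2 * t) ⁻¹' ((fun t : ℝ => s + t) ⁻¹' (Ioo 0 T \ G)) := rfl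
    rw [h1, Real.volume_preimage_mul_left hr2.ne', measure_preimage_add, h.fullG, mul_zero]
  · -- mean
    intro t ht i
    have huc : Continuous fun x => u (s + r ^ 2 * t) x i :=
      (contDiff_pi.1 (h.spv ht.2).1 i).continuous
    have e : ∀ z, th z * frv r s X u t z i = r * (th z * u (s + r ^ 2 * t)
        (X (s + r ^ 2 * t) + r • z) i) - (r * Y (s + r ^ 2 * t) i) * th z := by
      intro z
      rw [hvz t ht z i]
      ring
    simp only [e]
    have i1 : Integrable fun z : V => th z * u (s + r ^ 2 * t) (X (s + r ^ 2 * t) + r • z) i :=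
      int_csR (th_sm.continuous.mul (huc.comp (by fun_prop))) (a := 0) (R := 1) fun z hz => by
        rw [th_z hz, zero_mul]
    have i2 : Integrable fun z : V => th z :=
      int_csR th_sm.continuous (a := 0) (R := 1) fun z hz => th_z hz
    rw [integral_sub (i1.const_mul r) (i2.const_mul _), integral_const_mul, integral_const_mul,
      th_i1, hP.ev _ ht.2]
    show r * mo r (u (s + r ^ 2 * t)) (X (s + r ^ 2 * t)) i - _ = 0
    ring
  · -- bound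
    obtain ⟨Cb, hCb, hb⟩ := ball_le (r * 8)
    refine ⟨(∫ _ in ball (0 : V) 8, (6 * r ^ 2 * B ^ 2)) +
      2 * r ^ 2 * ((r ^ 3)⁻¹ * (Cb * E ^ 2)), fun t ht => ?_⟩
    have hu := h.spv ht.2
    have hnc := (nsq_sm hu.1).continuous
    have e1 : ∀ z, nsq (frv r s X u t) z ≤ 6 * r ^ 2 * B ^ 2 +
        2 * r ^ 2 * (fun x => nsq (u (s + r ^ 2 * t)) x) (X (s + r ^ 2 * t) + r • z) := by
      intro z
      unfold nsq
      simp only [hvz t ht]
      exact bdd_pt _ _ fun i => (norm_le_pi_norm (Y (s + r ^ 2 * t)) i).trans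
          (hP.bd _ (hmap t ht.1))
    unfold A2
    have hc2 : Continuous fun z => nsq (u (s + r ^ 2 * t)) (X (s + r ^ 2 * t) + r • z) :=
      hnc.comp (by fun_prop)
    refine (setIntegral_mono (ballint (nsq_sm (sl_sm hv ht)).continuous _ _)
      (ballint (f := fun z => 6 * r ^ 2 * B ^ 2 + 2 * r ^ 2 *
        nsq (u (s + r ^ 2 * t)) (X (s + r ^ 2 * t) + r • z)) (by fun_prop) _ _) e1).trans ?_
    have j1 : IntegrableOn (fun z : V => 2 * r ^ 2 *
        nsq (u (s + r ^ 2 * t)) (X (s + r ^ 2 * t) + r • z)) (ball (0 : V) 8) :=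
      ballint (continuous_const.mul hc2) _ _
    have j2 : IntegrableOn (fun _ : V => 6 * r ^ 2 * B ^ 2) (ball (0 : V) 8) :=
      ballint continuous_const _ _
    have j3 : ∫ z in ball (0 : V) 8, 2 * r ^ 2 *
        nsq (u (s + r ^ 2 * t)) (X (s + r ^ 2 * t) + r • z) = 2 * r ^ 2 *
        ∫ z in ball (0 : V) 8, nsq (u (s + r ^ 2 * t)) (X (s + r ^ 2 * t) + r • z) :=
      integral_const_mul _ _
    rw [integral_add j2 j1, j3]
    have h2 := Pool.Agent.W135.MD.int_ball_scale (fun x => nsq (u (s + r ^ 2 * t)) x)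
      (X (s + r ^ 2 * t)) hr 8
    rw [h2]
    refine add_le_add le_rfl ?_
    refine mul_le_mul_of_nonneg_left ?_ (by positivity)
    refine mul_le_mul_of_nonneg_left ?_ (by positivity)
    refine (hb _ hnc (nsq_per hu.2) (nsq_nn _) _).trans ?_
    rw [← energy_eq hu.1]
    exact mul_le_mul_of_nonneg_left (h.energy_le _ ht.2) hCb.le
  · -- lower bound of the majorant
    intro a ha b hb hab
    rw [hKch]
    have ha' := am_lo hr2 s ha.1
    have hb' := am_up hr2 s hb.2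
    have h1 := K1_low h (s := s + r ^ 2 * a) (t := s + r ^ 2 * b) (by linarith)
      (am_le hr2 s hab) (by linarith)
    have h2 : (s + r ^ 2 * b) - (s + r ^ 2 * a) = r ^ 2 * (b - a) := by ring
    rw [h2] at h1
    have h5 : 1 ≤ C1 := by
      rw [hC1]
      have : 0 ≤ r ^ 2 * Cm := by positivity
      linarith
    exact low_ar hr2 (by linarith) h1 h5
  · -- modulus
    intro M ψ hM hψ hψ0 hψ1 hψ2 hψ3 a ha b hb hab i
    set Ψ : ℝ → V → ℝ := fun _ x => ψ (r⁻¹ • x) with hΨ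
    have hψs : ContDiff ℝ ∞ (fun x : V => ψ (r⁻¹ • x)) := hψ.comp (contDiff_const_smul _)
    have hΨs : ContDiffOn ℝ ∞ (fun z : ℝ × V => Ψ z.1 z.2) (Ioo 0 T ×ˢ univ) :=
      (hψs.comp contDiff_snd).contDiffOn
    have hΨ0 : ∀ t ∈ Ioo 0 T, ∀ z ∉ ball (0 : V) (8 * r), Ψ t z = 0 := by
      intro t _ z hz
      refine hψ0 _ fun h' => hz ?_
      rw [mem_ball, dist_zero_right, norm_smul, Real.norm_eq_abs, abs_of_pos (inv_pos.2 hr),
        inv_mul_lt_iff₀ hr] at h'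
      rw [mem_ball, dist_zero_right]
      linarith
    have hbd : ∀ τ ∈ Icc (s - r ^ 2) s, ∀ x, |Ψ τ x| ≤ M * cr1 ∧
        |deriv (fun s => Ψ s x) τ| ≤ M * cr1 ∧ |lap (Ψ τ) x| ≤ M * cr1 ∧
        ∀ j, |pd j (Ψ τ) x| ≤ M * cr1 := by
      intro τ _ x
      have hri : 0 < r⁻¹ := inv_pos.2 hr
      have hrr : 0 < r⁻¹ * r⁻¹ := mul_pos hri hri
      have hMr := mul_nonneg hM hri.le
      have hMrr := mul_nonneg hM hrr.le
      have e : M * cr1 = M + M * r⁻¹ + 3 * (M * (r⁻¹ * r⁻¹)) := by rw [hcr1]; ring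
      rw [e]
      refine ⟨(hψ1 _).trans (by linarith), ?_, ?_, fun j => ?_⟩
      · show |deriv (fun _ => ψ (r⁻¹ • x)) τ| ≤ _
        rw [deriv_const, abs_zero]
        positivity
      · show |lap (fun x => ψ (r⁻¹ • x)) x| ≤ _
        rw [lap_sc hψ, ← mul_assoc, abs_mul, abs_of_pos hrr]
        have h1 : |lap ψ (r⁻¹ • x)| ≤ 3 * M := by
          unfold lap
          refine (Finset.abs_sum_le_sum_abs _ _).trans ?_
          refine (Finset.sum_le_sum fun j _ => hψ3 _ j j).trans ?_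
          simp
        exact lap_ar _ hM hri.le h1
      · show |pd j (fun x => ψ (r⁻¹ • x)) x| ≤ _
        rw [pd_sc (f := ψ) r⁻¹ j]
        show |r⁻¹ * pd j ψ (r⁻¹ • x)| ≤ _
        rw [abs_mul, abs_of_pos hri]
        exact pd_ar _ hM hri.le (hψ2 (r⁻¹ • x) j)
    have hMc : 0 ≤ M * cr1 := by positivity
    obtain ⟨-, -, -, -, -, hJ⟩ := hk0 D G u p h 0 T (s - r ^ 2) s Ψ hΨs hΨ0 (by linarith) hsT
      (by linarith) hsT X Y (fun τ hτ => hP.hd τ ⟨by linarith [hτ.1], by linarith [hτ.2]⟩)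
      (fun τ hτ => hP.bd τ ⟨by linarith [hτ.1], by linarith [hτ.2]⟩) (M * cr1) hMc hbd
      (s + r ^ 2 * a) ha.2 (hmap2 a ha.1) (s + r ^ 2 * b) hb.2 (hmap2 b hb.1)
      (am_le hr2 s hab) i
    have hform : ∀ t ∈ H, ∫ z, frv r s X u t z i * ψ z =
        r * ((r ^ 3)⁻¹ * (∫ x, u (s + r ^ 2 * t) x i * mv Ψ X (s + r ^ 2 * t) x)
          - Y (s + r ^ 2 * t) i * ∫ z, ψ z) := by
      intro t ht
      have huc : Continuous fun x => u (s + r ^ 2 * t) x i :=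
        (contDiff_pi.1 (h.spv ht.2).1 i).continuous
      have e : ∀ z, frv r s X u t z i * ψ z = r * ((fun x => u (s + r ^ 2 * t) x i *
          mv Ψ X (s + r ^ 2 * t) x) (X (s + r ^ 2 * t) + r • z)) -
          (r * Y (s + r ^ 2 * t) i) * ψ z := by
        intro z
        rw [hvz t ht z i]
        have e0 : mv Ψ X (s + r ^ 2 * t) (X (s + r ^ 2 * t) + r • z) = ψ z := by
          show ψ (r⁻¹ • (X (s + r ^ 2 * t) + r • z - X (s + r ^ 2 * t))) = ψ z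
          rw [add_sub_cancel_left, smul_smul, inv_mul_cancel₀ hr.ne', one_smul]
        simp only [e0]
        ring
      simp only [e]
      have i1 : Integrable fun z : V => (fun x => u (s + r ^ 2 * t) x i *
          mv Ψ X (s + r ^ 2 * t) x) (X (s + r ^ 2 * t) + r • z) := by
        have e0 : ∀ z, (fun x => u (s + r ^ 2 * t) x i *
          mv Ψ X (s + r ^ 2 * t) x) (X (s + r ^ 2 * t) + r • z) =
            u (s + r ^ 2 * t) (X (s + r ^ 2 * t) + r • z) i * ψ z := by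
          intro z
          show _ * ψ (r⁻¹ • (X (s + r ^ 2 * t) + r • z - X (s + r ^ 2 * t))) = _
          rw [add_sub_cancel_left, smul_smul, inv_mul_cancel₀ hr.ne', one_smul]
        simp only [e0]
        exact int_csR ((huc.comp (by fun_prop)).mul hψ.continuous) (a := 0) (R := 8)
          fun z hz => by rw [hψ0 z hz, mul_zero]
      have i2 : Integrable fun z : V => ψ z :=
        int_csR hψ.continuous (a := 0) (R := 8) fun z hz => hψ0 z hz
      rw [integral_sub (i1.const_mul r) (i2.const_mul _), integral_const_mul, integral_const_mul,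
        int_aff hr (X (s + r ^ 2 * t)) (fun x => u (s + r ^ 2 * t) x i *
          mv Ψ X (s + r ^ 2 * t) x)]
      ring
    rw [hform b hb, hform a ha]
    have hYd : |Y (s + r ^ 2 * b) i - Y (s + r ^ 2 * a) i| ≤ |C| *
        ∫ t in Ioo (s + r ^ 2 * a) (s + r ^ 2 * b), K1 G u p t := by
      have hI0 : 0 ≤ ∫ t in Ioo (s + r ^ 2 * a) (s + r ^ 2 * b), K1 G u p t :=
        integral_nonneg fun t => K1_nn G u p t
      refine (norm_le_pi_norm (Y (s + r ^ 2 * b) - Y (s + r ^ 2 * a)) i).trans ?_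
      refine (hP.md _ (hmap a ha.1) _ (hmap b hb.1) (am_le hr2 s hab)).trans ?_
      exact mul_le_mul_of_nonneg_right (le_abs_self _) hI0
    have hψi : |∫ z, ψ z| ≤ M * vol8 := by
      rw [← ball_int_eq (a := 0) (R := 8) hψ0]
      have h1 : IntegrableOn (fun _ : V => M * 1) (ball (0 : V) 8) := ballint continuous_const _ _
      refine (abs_int_le h1 (ae_of_all _ fun z => by rw [mul_one]; exact hψ1 z)).trans ?_
      rw [integral_const_mul]
    set I0 := ∫ t in Ioo (s + r ^ 2 * a) (s + r ^ 2 * b), K1 G u p t with hI0d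
    have hI0 : 0 ≤ I0 := integral_nonneg fun t => K1_nn G u p t
    set Ja := ∫ x, u (s + r ^ 2 * a) x i * mv Ψ X (s + r ^ 2 * a) x with hJa
    set Jb := ∫ x, u (s + r ^ 2 * b) x i * mv Ψ X (s + r ^ 2 * b) x with hJb
    have e : r * ((r ^ 3)⁻¹ * Jb - Y (s + r ^ 2 * b) i * ∫ z, ψ z) -
        r * ((r ^ 3)⁻¹ * Ja - Y (s + r ^ 2 * a) i * ∫ z, ψ z) =
        r * ((r ^ 3)⁻¹ * (Jb - Ja) - (Y (s + r ^ 2 * b) i - Y (s + r ^ 2 * a) i) * ∫ z, ψ z) := by
      ring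
    rw [e, abs_mul, abs_of_pos hr, hKch]
    have h1 : |(r ^ 3)⁻¹ * (Jb - Ja) - (Y (s + r ^ 2 * b) i - Y (s + r ^ 2 * a) i) * ∫ z, ψ z| ≤
        (r ^ 3)⁻¹ * (K0 * (M * cr1) * I0) + |C| * I0 * (M * vol8) := by
      refine (abs_sub _ _).trans ?_
      rw [abs_mul, abs_mul, abs_of_pos (by positivity : (0:ℝ) < (r ^ 3)⁻¹)]
      refine add_le_add (mul_le_mul_of_nonneg_left hJ (by positivity)) ?_
      exact mul_le_mul hYd hψi (abs_nonneg _) (by positivity)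
    have h2 : r * ((r ^ 3)⁻¹ * (K0 * (M * cr1) * I0) + |C| * I0 * (M * vol8)) = Cm * (M * I0) := by
      rw [hCm]; ring
    have h3 : M * (C1 * ((r ^ 2)⁻¹ * I0)) = (r ^ 2)⁻¹ * (M * I0) + Cm * (M * I0) := by
      rw [hC1]
      field_simp
    rw [h3]
    have h4 := mul_le_mul_of_nonneg_left h1 hr.le
    rw [h2] at h4
    have h5 : 0 ≤ (r ^ 2)⁻¹ * (M * I0) := by positivity
    linarith
  · -- the energy inequality
    intro α β ρ Φ y y' hMT s' hs' t' ht' hαs' hst' htβ' hpos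
    have hΦ := hMT.sm
    have hρ := hMT.rho
    -- the test function in the original variables
    set α' := s + r ^ 2 * α with hα'
    set β' := s + r ^ 2 * β with hβ'
    set Ψ : ℝ → V → ℝ := fun τ x => Φ ((r ^ 2)⁻¹ * (τ - s)) (r⁻¹ • x) with hΨd
    set Z : ℝ → V := fun τ => X τ + r • y ((r ^ 2)⁻¹ * (τ - s)) with hZd
    set Z' : ℝ → V := fun τ => Y τ + r • ((r ^ 2)⁻¹ • y' ((r ^ 2)⁻¹ * (τ - s))) with hZ'd
    have hin : ∀ τ ∈ Ioo α' β', (r ^ 2)⁻¹ * (τ - s) ∈ Ioo α β := by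
      intro τ hτ
      rw [hα', hβ'] at hτ
      constructor
      · rw [lt_inv_mul_iff₀ hr2]
        linarith [hτ.1]
      · rw [inv_mul_lt_iff₀ hr2]
        linarith [hτ.2]
    have hα0 : s - r ^ 2 ≤ α' := am_lo hr2 s hMT.low
    have hβ0 : β' ≤ s := am_up hr2 s hMT.up
    have hΨ : ContDiffOn ℝ ∞ (fun z : ℝ × V => Ψ z.1 z.2) (Ioo α' β' ×ˢ univ) := by
      have h2 : ContDiff ℝ ∞ (fun z : ℝ × V => (((r ^ 2)⁻¹ * (z.1 - s), r⁻¹ • z.2) : ℝ × V)) := by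
        fun_prop
      exact hΦ.comp h2.contDiffOn fun z hz => ⟨hin z.1 hz.1, mem_univ _⟩
    have hrρ : 0 < r * ρ := by positivity
    have hΨ0 : ∀ τ ∈ Ioo α' β', ∀ z ∉ ball (0 : V) (r * ρ), Ψ τ z = 0 := by
      intro τ hτ z hz
      refine hMT.supp _ (hin τ hτ) _ fun h' => hz ?_
      rw [mem_ball, dist_zero_right, norm_smul, Real.norm_eq_abs, abs_of_pos (inv_pos.2 hr),
        inv_mul_lt_iff₀ hr] at h'
      rwa [mem_ball, dist_zero_right]
    set τ₁ := s + r ^ 2 * s' with hτ₁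
    set τ₂ := s + r ^ 2 * t' with hτ₂
    have hτ₁G : τ₁ ∈ G := hs'.2
    have hτ₂G : τ₂ ∈ G := ht'.2
    have hle : τ₁ ≤ τ₂ := am_le hr2 s hst'
    have hα1 : α' < τ₁ := am_lt hr2 s hαs'
    have hβ1 : τ₂ < β' := am_lt hr2 s htβ'
    have hback : ∀ t, (r ^ 2)⁻¹ * (s + r ^ 2 * t - s) = t := by
      intro t
      rw [add_sub_cancel_left, ← mul_assoc, inv_mul_cancel₀ hr2.ne', one_mul]
    have hposΨ : ∀ τ ∈ Icc τ₁ τ₂, ∀ z, 0 ≤ Ψ τ z := by
      intro τ hτ z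
      refine hpos _ ⟨?_, ?_⟩ _
      · rw [le_inv_mul_iff₀ hr2]
        have := hτ.1
        rw [hτ₁] at this
        linarith
      · rw [inv_mul_le_iff₀ hr2]
        have := hτ.2
        rw [hτ₂] at this
        linarith
    have hinT : ∀ τ ∈ Ioo α' β', τ ∈ Ioo 0 T := fun τ hτ =>
      ⟨by linarith [hτ.1], by linarith [hτ.2]⟩
    have hZder : ∀ τ ∈ Ioo α' β', HasDerivAt Z (Z' τ) τ := by
      intro τ hτ
      have h2 : HasDerivAt (fun τ : ℝ => (r ^ 2)⁻¹ * (τ - s)) ((r ^ 2)⁻¹) τ := by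
        simpa using ((hasDerivAt_id τ).sub_const s).const_mul ((r ^ 2)⁻¹)
      have h3 := (hMT.der _ (hin τ hτ)).scomp τ h2
      exact (hP.hd τ (hinT τ hτ)).add (h3.const_smul r)
    have hZ'c : ContinuousOn Z' (Ioo α' β') := by
      have h1 : ContinuousOn Y (Ioo α' β') := (hP.yc h).mono hinT
      have h2 : ContinuousOn (fun τ => y' ((r ^ 2)⁻¹ * (τ - s))) (Ioo α' β') :=
        hMT.cont.comp (by fun_prop) hin
      have hc1 : Continuous fun v : V => r • ((r ^ 2)⁻¹ • v) :=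
        (continuous_const_smul r).comp (continuous_const_smul ((r ^ 2)⁻¹))
      have h3 : ContinuousOn (fun τ => r • (r ^ 2)⁻¹ • y' ((r ^ 2)⁻¹ * (τ - s))) (Ioo α' β') :=
        hc1.comp_continuousOn h2
      exact h1.add h3
    have hI1' : Icc τ₁ τ₂ ⊆ Ioo α' β' := fun τ hτ => ⟨hα1.trans_le hτ.1, hτ.2.trans_lt hβ1⟩
    obtain ⟨hI1, hE1⟩ := lei_mov2 hT h hΨ hrρ hΨ0 (X := Z) (Y := Z') hτ₁G hτ₂G hα1 hle hβ1
      (fun τ hτ => hZder τ (hI1' hτ)) (hZ'c.mono hI1') hposΨ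
    -- the two energies
    set Eu : ℝ → ℝ := fun τ => ∫ x, nsq (u τ) x * mv Ψ Z τ x with hEu
    set Ev : ℝ → ℝ := EW (frv r s X u) Φ y with hEv
    set G' : Set ℝ := G ∩ Ioo α' β' ∩ Ioo (s - r ^ 2) s with hG'
    have hG'o : IsOpen G' := (h.openG.inter isOpen_Ioo).inter isOpen_Ioo
    have hG'G : G' ⊆ G := fun τ hτ => hτ.1.1
    have hG'ab : G' ⊆ Ioo α' β' := fun τ hτ => hτ.1.2
    have hτback : ∀ τ : ℝ, s + r ^ 2 * ((r ^ 2)⁻¹ * (τ - s)) = τ := by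
      intro τ
      rw [← mul_assoc, mul_inv_cancel₀ hr2.ne', one_mul]
      ring
    have hG'H : ∀ τ ∈ G', (r ^ 2)⁻¹ * (τ - s) ∈ H := by
      intro τ hτ
      refine ⟨⟨?_, ?_⟩, ?_⟩
      · rw [lt_inv_mul_iff₀ hr2]
        linarith [hτ.2.1]
      · rw [inv_mul_lt_iff₀ hr2]
        linarith [hτ.2.2]
      · show s + r ^ 2 * ((r ^ 2)⁻¹ * (τ - s)) ∈ G
        rw [hτback]
        exact hG'G hτ
    -- `Z` is bounded
    have hy1 : ∀ t ∈ Ioo α β, ‖y t‖ ≤ 1 := fun t ht => by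
      have := hMT.ins t ht
      linarith
    obtain ⟨RX, hRX0, hRX⟩ : ∃ ρ' : ℝ, 0 < ρ' ∧ ∀ τ ∈ G', ∀ z ∉ ball (0 : V) ρ',
        mv Ψ Z τ z = 0 := by
      refine ⟨‖X τ₁‖ + B * T + r + r * ρ + 1, by positivity,
        fun τ hτ z hz => hΨ0 τ (hG'ab hτ) _ fun h' => hz ?_⟩
      rw [mem_ball, dist_zero_right] at h' ⊢
      have h1T := h.subG hτ₁G
      have h2T := h.subG (hG'G hτ)
      have h3 := Convex.norm_image_sub_le_of_norm_hasDerivWithin_le (f := X) (s := Ioo 0 T)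
        (C := B) (fun x hx => (hP.hd x hx).hasDerivWithinAt)
        (fun x hx => hP.bd x hx) (convex_Ioo _ _) h1T h2T
      have h4 : ‖τ - τ₁‖ ≤ T := by
        rw [Real.norm_eq_abs, abs_le]
        constructor <;> linarith [h1T.1, h1T.2, h2T.1, h2T.2]
      have h5 : B * ‖τ - τ₁‖ ≤ B * T := mul_le_mul_of_nonneg_left h4 hB0
      have h6 := norm_sub_norm_le (X τ) (X τ₁)
      have h7 := norm_sub_norm_le z (Z τ)
      have h8 : ‖Z τ‖ ≤ ‖X τ‖ + r := by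
        refine (norm_add_le _ _).trans (add_le_add le_rfl ?_)
        rw [norm_smul, Real.norm_eq_abs, abs_of_pos hr]
        calc r * ‖y ((r ^ 2)⁻¹ * (τ - s))‖ ≤ r * 1 :=
              mul_le_mul_of_nonneg_left (hy1 _ (hin τ (hG'ab hτ))) hr.le
          _ = r := mul_one r
      linarith
    have hys : ContDiffOn ℝ ∞ (fun τ => y ((r ^ 2)⁻¹ * (τ - s))) G' := by
      have h2 : ContDiff ℝ ∞ (fun τ : ℝ => (r ^ 2)⁻¹ * (τ - s)) := by fun_prop
      exact hMT.ysm.comp h2.contDiffOn fun τ hτ => ⟨hG'H τ hτ, hin τ (hG'ab hτ)⟩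
    have hZs : ContDiffOn ℝ ∞ Z G' := (hP.sm.mono hG'G).add (hys.const_smul r)
    have hmvs : ContDiffOn ℝ ∞ (fun z : ℝ × V => mv Ψ Z z.1 z.2) (G' ×ˢ univ) := by
      have h1 : ContDiffOn ℝ ∞ (fun z : ℝ × V => Z z.1) (G' ×ˢ univ) :=
        hZs.comp contDiff_fst.contDiffOn fun z hz => hz.1
      have h2 : ContDiffOn ℝ ∞ (fun z : ℝ × V => ((z.1, z.2 - Z z.1) : ℝ × V)) (G' ×ˢ univ) :=
        contDiff_fst.contDiffOn.prodMk (contDiff_snd.contDiffOn.sub h1)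
      exact hΨ.comp h2 fun z hz => ⟨hG'ab hz.1, mem_univ _⟩
    have hum : ContDiffOn ℝ ∞ (fun z : ℝ × V => u z.1 z.2) (G' ×ˢ univ) :=
      h.smooth_u.mono (prod_mono hG'G subset_rfl)
    have hpm : ContDiffOn ℝ ∞ (fun z : ℝ × V => p z.1 z.2) (G' ×ˢ univ) :=
      h.smooth_p.mono (prod_mono hG'G subset_rfl)
    have hdu : ∀ τ ∈ G', HasDerivAt Eu (DD 1 u p (mv Ψ Z) τ) τ := fun τ hτ =>
      en_id hG'o hum hpm (fun t ht => h.divfree t (hG'G ht)) (fun t ht x i => by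
        have := h.momentum t (hG'G ht) x i
        rw [one_mul] at this
        exact this) hmvs hRX0 hRX hτ
    have hJo : IsOpen (H ∩ Ioo α β) := hHo.inter isOpen_Ioo
    have hdv : ∀ t ∈ H ∩ Ioo α β, HasDerivAt Ev (deriv Ev t) t := by
      intro t ht
      have hys2 : ContDiffOn ℝ ∞ (fun z : ℝ × V => ((z.1, z.2 - y z.1) : ℝ × V))
          ((H ∩ Ioo α β) ×ˢ univ) := by
        have h1 : ContDiffOn ℝ ∞ (fun z : ℝ × V => y z.1) ((H ∩ Ioo α β) ×ˢ univ) :=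
          hMT.ysm.comp contDiff_fst.contDiffOn fun z hz => hz.1
        exact contDiff_fst.contDiffOn.prodMk (contDiff_snd.contDiffOn.sub h1)
      have hF : ContDiffOn ℝ ∞ (fun z : ℝ × V => nsq (frv r s X u z.1) z.2 * mv Φ y z.1 z.2)
          ((H ∩ Ioo α β) ×ˢ univ) :=
        (nsq_joint (hv.mono (prod_mono inter_subset_left subset_rfl))).mul
          (hΦ.comp hys2 fun z hz => ⟨hz.1.2, mem_univ _⟩)
      have h0 : ∀ t ∈ H ∩ Ioo α β, ∀ z ∉ ball (0 : V) 1,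
          nsq (frv r s X u t) z * mv Φ y t z = 0 := by
        intro t ht z hz
        have : mv Φ y t z = 0 := by
          refine hMT.supp t ht.2 _ fun h' => hz ?_
          rw [mem_ball, dist_zero_right] at h' ⊢
          have h7 := norm_sub_norm_le z (y t)
          have h8 := hMT.ins t ht.2
          linarith
        rw [this, mul_zero]
      have h1 := hd_int (F := fun t z => nsq (frv r s X u t) z * mv Φ y t z) hJo hF h0 ht
      exact h1.differentiableAt.hasDerivAt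
    -- the cross terms
    have hcr : ∀ τ ∈ G', r * Ev ((r ^ 2)⁻¹ * (τ - s)) = Eu τ + cr u Ψ Z Y τ := by
      intro τ hτ
      have hτH := hG'H τ hτ
      have hΦc : Continuous (mv Φ y ((r ^ 2)⁻¹ * (τ - s))) :=
        (sl_sm hΦ (hin τ (hG'ab hτ))).continuous.comp (by fun_prop)
      have h1 := en_frame (w := u τ) (a := X τ) (y := Y τ) hr (h.spv (hG'G hτ)).1 hΦc
        (R := 1) (fun z hz => by
          refine hMT.supp _ (hin τ (hG'ab hτ)) _ fun h' => hz ?_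
          rw [mem_ball, dist_zero_right] at h' ⊢
          have h7 := norm_sub_norm_le z (y ((r ^ 2)⁻¹ * (τ - s)))
          have h8 := hMT.ins _ (hin τ (hG'ab hτ))
          linarith) (v := frv r s X u ((r ^ 2)⁻¹ * (τ - s))) (by
          intro z i
          rw [hvz _ hτH z i, hτback])
      have e : ∀ x, mv Φ y ((r ^ 2)⁻¹ * (τ - s)) (r⁻¹ • (x - X τ)) = mv Ψ Z τ x := by
        intro x
        show Φ _ (r⁻¹ • (x - X τ) - y ((r ^ 2)⁻¹ * (τ - s))) =
          Φ _ (r⁻¹ • (x - (X τ + r • y ((r ^ 2)⁻¹ * (τ - s)))))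
        congr 1
        rw [← sub_sub, smul_sub r⁻¹ (x - X τ), smul_smul, inv_mul_cancel₀ hr.ne', one_smul]
      simp only [e] at h1
      exact h1
    -- a slightly larger interval
    have hτ₁I : τ₁ ∈ Ioo (s - r ^ 2) s := hmap1 s' hs'.1
    have hτ₂I : τ₂ ∈ Ioo (s - r ^ 2) s := hmap1 t' ht'.1
    obtain ⟨α₁, ha1, ha2⟩ := exists_between (max_lt hα1 hτ₁I.1)
    obtain ⟨β₁, hb1, hb2⟩ := exists_between (lt_min hβ1 hτ₂I.2)
    have ha3 : α' < α₁ := (le_max_left _ _).trans_lt ha1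
    have ha4 : s - r ^ 2 < α₁ := (le_max_right _ _).trans_lt ha1
    have hb3 : β₁ < β' := hb2.trans_le (min_le_left _ _)
    have hb4 : β₁ < s := hb2.trans_le (min_le_right _ _)
    have hIab : Icc α₁ β₁ ⊆ Ioo α' β' := fun τ hτ => ⟨ha3.trans_le hτ.1, hτ.2.trans_lt hb3⟩
    obtain ⟨Bz, hBz⟩ := isCompact_Icc.exists_bound_of_continuousOn (hZ'c.mono hIab)
    obtain ⟨K, hK⟩ := cross3 hT h hP hΨ hrρ hΨ0 ha3 hb3 (by linarith) (by linarith)
      (fun τ hτ => hZder τ (hIab hτ)) hBz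
    have hsubI : G ∩ Ioo α₁ β₁ ⊆ G' := fun τ hτ =>
      ⟨⟨hτ.1, ha3.trans hτ.2.1, hτ.2.2.trans hb3⟩, ha4.trans hτ.2.1, hτ.2.2.trans hb4⟩
    obtain ⟨F, hF1, -, hF3⟩ := hA α₁ β₁ (G ∩ Ioo α₁ β₁) (cr u Ψ Z Y) (fun t => |K| * K1 G u p t)
      (by linarith) inter_subset_right ((K1_int h).integrableOn.const_mul _)
      (fun t => mul_nonneg (abs_nonneg _) (K1_nn G u p t)) (fun σ hσ τ hτ hστ => by
        rw [integral_const_mul]
        refine (hK σ hσ.1 (Ioo_subset_Icc_self hσ.2) τ hτ.1 (Ioo_subset_Icc_self hτ.2) hστ).trans ?_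
        exact mul_le_mul_of_nonneg_right (le_abs_self _)
          (integral_nonneg fun t => K1_nn G u p t))
    have hsubc : Icc τ₁ τ₂ ⊆ Icc α₁ β₁ := Icc_subset_Icc ha2.le hb1.le
    obtain ⟨hFi, hFe⟩ := ftc_mod ((K1_int h).const_mul |K|) hle
      (fun σ hσ τ hτ hστ => hF3 σ (hsubc hσ) τ (hsubc hτ) hστ)
    have hF₁ : F τ₁ = cr u Ψ Z Y τ₁ := hF1 τ₁ ⟨hτ₁G, ha2, hle.trans_lt hb1⟩
    have hF₂ : F τ₂ = cr u Ψ Z Y τ₂ := hF1 τ₂ ⟨hτ₂G, ha2.trans_le hle, hb1⟩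
    -- its derivative
    have hdF : ∀ τ ∈ G, τ ∈ Ioo τ₁ τ₂ → deriv F τ =
        r⁻¹ * deriv Ev ((r ^ 2)⁻¹ * (τ - s)) - DD 1 u p (mv Ψ Z) τ := by
      intro τ hτG hτ
      have hτI : τ ∈ G ∩ Ioo α₁ β₁ := ⟨hτG, ha2.trans hτ.1, hτ.2.trans hb1⟩
      have hnear : F =ᶠ[𝓝 τ] fun τ => r * Ev ((r ^ 2)⁻¹ * (τ - s)) - Eu τ := by
        filter_upwards [(h.openG.inter isOpen_Ioo).mem_nhds hτI] with σ hσ
        rw [hF1 σ hσ, hcr σ (hsubI hσ)]
        ring
      rw [hnear.deriv_eq]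
      have hτ' := hsubI hτI
      have h1 := hdv ((r ^ 2)⁻¹ * (τ - s)) ⟨hG'H τ hτ', hin τ (hG'ab hτ')⟩
      have h2 : HasDerivAt (fun τ : ℝ => (r ^ 2)⁻¹ * (τ - s)) ((r ^ 2)⁻¹) τ := by
        simpa using ((hasDerivAt_id τ).sub_const s).const_mul ((r ^ 2)⁻¹)
      have h3 := ((h1.comp τ h2).const_mul r).sub (hdu τ hτ')
      have h4 := h3.deriv
      rw [show (fun τ => r * Ev ((r ^ 2)⁻¹ * (τ - s)) - Eu τ) =
        (fun y => r * (Ev ∘ fun τ => (r ^ 2)⁻¹ * (τ - s)) y) - Eu from rfl, h4]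
      field_simp
    -- the density
    have hae : ∀ᵐ τ ∂(volume.restrict (Ioo τ₁ τ₂)), τ ∈ G ∧ τ ∈ Ioo τ₁ τ₂ := by
      filter_upwards [aeT h (h.subG hτ₁G).1.le (h.subG hτ₂G).2.le,
        ae_restrict_mem measurableSet_Ioo] with τ h1 h2
      exact ⟨h1, h2⟩
    have hDu : ∀ τ ∈ G, τ ∈ Ioo τ₁ τ₂ → ∫ x, edx u p Ψ τ (Z τ) (Z' τ) x =
        DD 1 u p (mv Ψ Z) τ := by
      intro τ hτG hτ
      have hτ' : τ ∈ G' := hsubI ⟨hτG, ha2.trans hτ.1, hτ.2.trans hb1⟩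
      rw [DD_eq 1 hG'o hum hpm hmvs hRX0 hRX hτ']
      congr 1
      funext x
      exact (ed_mv hΨ (hG'ab hτ') (hZder τ (hG'ab hτ')) x).symm
    have hsum : ∀ᵐ τ ∂(volume.restrict (Ioo τ₁ τ₂)), deriv F τ +
        ∫ x, edx u p Ψ τ (Z τ) (Z' τ) x = r⁻¹ * deriv Ev ((r ^ 2)⁻¹ * (τ - s)) := by
      filter_upwards [hae] with τ hτ
      rw [hdF τ hτ.1 hτ.2, hDu τ hτ.1 hτ.2]
      ring
    have hIv : IntegrableOn (fun τ => deriv Ev ((r ^ 2)⁻¹ * (τ - s))) (Ioo τ₁ τ₂) := by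
      have h1 : IntegrableOn (fun τ => r * (deriv F τ + ∫ x, edx u p Ψ τ (Z τ) (Z' τ) x))
          (Ioo τ₁ τ₂) := (hFi.add hI1).const_mul r
      refine h1.congr ?_
      filter_upwards [hsum] with τ hτ
      rw [hτ, ← mul_assoc, mul_inv_cancel₀ hr.ne', one_mul]
    have hpre : (fun t : ℝ => s + r ^ 2 * t) ⁻¹' (Ioo τ₁ τ₂) = Ioo s' t' := by
      ext t
      simp only [mem_preimage, mem_Ioo, hτ₁, hτ₂]
      constructor
      · rintro ⟨h1, h2⟩
        exact ⟨lt_of_mul_lt_mul_left (by linarith : r ^ 2 * s' < r ^ 2 * t) hr2.le,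
          lt_of_mul_lt_mul_left (by linarith : r ^ 2 * t < r ^ 2 * t') hr2.le⟩
      · rintro ⟨h1, h2⟩
        exact ⟨am_lt hr2 s h1, am_lt hr2 s h2⟩
    have hcomp : ∀ t, (Ioo τ₁ τ₂).indicator (fun τ => deriv Ev ((r ^ 2)⁻¹ * (τ - s)))
        (s + r ^ 2 * t) = (Ioo s' t').indicator (deriv Ev) t := by
      intro t
      by_cases ht : t ∈ Ioo s' t'
      · have ht2 : s + r ^ 2 * t ∈ Ioo τ₁ τ₂ := by
          rw [← hpre] at ht
          exact ht
        rw [indicator_of_mem ht, indicator_of_mem ht2, hback]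
      · have ht2 : s + r ^ 2 * t ∉ Ioo τ₁ τ₂ := by
          rw [← hpre] at ht
          exact ht
        rw [indicator_of_notMem ht, indicator_of_notMem ht2]
    have hInd : Integrable ((Ioo τ₁ τ₂).indicator (fun τ => deriv Ev
        ((r ^ 2)⁻¹ * (τ - s)))) := (integrable_indicator_iff measurableSet_Ioo).2 hIv
    have hInt : Integrable ((Ioo s' t').indicator (deriv Ev)) := by
      have h1 := (hInd.comp_add_left s).comp_mul_left' hr2.ne'
      refine h1.congr (ae_of_all _ fun t => ?_)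
      exact hcomp t
    refine ⟨(integrable_indicator_iff measurableSet_Ioo).1 hInt, ?_⟩
    have hchg : ∫ t in Ioo s' t', deriv Ev t =
        (r ^ 2)⁻¹ * ∫ τ in Ioo τ₁ τ₂, deriv Ev ((r ^ 2)⁻¹ * (τ - s)) := by
      have h1 := chv hr2 s s' t' (fun τ => deriv Ev ((r ^ 2)⁻¹ * (τ - s)))
      simp only [hback] at h1
      exact h1
    have hint : (∫ τ in Ioo τ₁ τ₂, deriv F τ) +
        ∫ τ in Ioo τ₁ τ₂, ∫ x, edx u p Ψ τ (Z τ) (Z' τ) x =
        r⁻¹ * ∫ τ in Ioo τ₁ τ₂, deriv Ev ((r ^ 2)⁻¹ * (τ - s)) := by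
      rw [← integral_add hFi hI1, ← integral_const_mul]
      exact integral_congr_ae hsum
    have hτ₁G' : τ₁ ∈ G' := hsubI ⟨hτ₁G, ha2, hle.trans_lt hb1⟩
    have hτ₂G' : τ₂ ∈ G' := hsubI ⟨hτ₂G, ha2.trans_le hle, hb1⟩
    have hv1 := hcr τ₁ hτ₁G'
    have hv2 := hcr τ₂ hτ₂G'
    rw [hτ₁, hback] at hv1
    rw [hτ₂, hback] at hv2
    rw [← hτ₁] at hv1
    rw [← hτ₂] at hv2
    rw [hF₁, hF₂] at hFe
    show Ev t' - Ev s' ≤ _
    have hfin : r * (Ev t' - Ev s') ≤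
        r⁻¹ * ∫ τ in Ioo τ₁ τ₂, deriv Ev ((r ^ 2)⁻¹ * (τ - s)) := by
      rw [← hint, ← hFe]
      exact fin_ar hv2 hv1 hE1
    rw [hchg]
    have h5 : Ev t' - Ev s' = r⁻¹ * (r * (Ev t' - Ev s')) := by
      rw [← mul_assoc, inv_mul_cancel₀ hr.ne', one_mul]
    rw [h5]
    refine (mul_le_mul_of_nonneg_left hfin (by positivity)).trans (le_of_eq ?_)
    rw [← mul_assoc]
    congr 1
    field_simp

end Pool.Agent.Y496.NS.WFR2
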